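import Pool.Agent.Hex4.Heis

/-!
# The clique part

If cubing is injective on `F` (and `2, 3 ≠ 0` in `F`), then the Cayley graph of the Heisenberg group
`H F` with respect to `S K` contains no `K_4`.
-/

set_option autoImplicit false

namespace Pool.Agent.Hex4

variable {F : Type*} [Field F]

/-- The connection set: products of two pure elements with different labels. -/
def S (K : Set F) (h : H F) : Prop :=
  ∃ ξ η : F × F, ξ.1 ≠ 0 ∧ η.1 ≠ 0 ∧ (ξ.2 / ξ.1 ∈ K ↔ η.2 / η.1 ∉ K) ∧ h = v ξ * v η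

lemma div_eq_of_br {ξ η : F × F} (h1 : ξ.1 ≠ 0) (h2 : η.1 ≠ 0) (h : br ξ η = 0) :
    ξ.2 / ξ.1 = η.2 / η.1 := by
  rw [div_eq_div_iff h1 h2]
  simp only [br] at h
  linear_combination -h

lemma br_of_div_eq {ξ η : F × F} (h1 : ξ.1 ≠ 0) (h2 : η.1 ≠ 0) (h : ξ.2 / ξ.1 = η.2 / η.1) :
    br ξ η = 0 := by
  rw [div_eq_div_iff h1 h2] at h
  simp only [br]
  linear_combination -h

/-- different labels imply different directions -/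
lemma br_ne {K : Set F} {ξ η : F × F} (h1 : ξ.1 ≠ 0) (h2 : η.1 ≠ 0)
    (h : ξ.2 / ξ.1 ∈ K ↔ η.2 / η.1 ∉ K) : br ξ η ≠ 0 := by
  intro h0
  rw [div_eq_of_br h1 h2 h0] at h
  tauto

/-- a sum of two cubes determines the two directions -/
lemma dir_of_eq {a b c d : F × F}
    (h0 : (v a * v b).c0 = (v c * v d).c0) (h1 : (v a * v b).c1 = (v c * v d).c1)
    (h2 : (v a * v b).c2 = (v c * v d).c2) (h3 : (v a * v b).c3 = (v c * v d).c3)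
    (hs : br a b ≠ 0) : br c a = 0 ∨ br c b = 0 := by
  have e1 := hess_two a b c
  have e2 := hess_two c d c
  rw [h0, h1, h2, h3] at e1
  rw [e2] at e1
  have e3 : br c c = 0 := by simp only [br]; ring
  rw [e3, zero_mul, mul_zero] at e1
  have e4 : br c a * br c b = 0 := by
    have := e1.symm
    rcases mul_eq_zero.mp this with h | h
    · exact absurd (pow_eq_zero_iff (two_ne_zero)|>.mp h) hs
    · exact h
  exact mul_eq_zero.mp e4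

section

variable (h2 : (2 : F) ≠ 0) (h3 : (3 : F) ≠ 0) (hc : ∀ x y : F, x ^ 3 = y ^ 3 → x = y)

include h2 hc in
/-- In a triangle the two directions at a vertex are different. -/
lemma tri {K : Set F} {ξ η ξ' η' : F × F} (a1 : ξ.1 ≠ 0) (a2 : η.1 ≠ 0)
    (a3 : ξ.2 / ξ.1 ∈ K ↔ η.2 / η.1 ∉ K) (b1 : ξ'.1 ≠ 0) (b2 : η'.1 ≠ 0)
    (b3 : ξ'.2 / ξ'.1 ∈ K ↔ η'.2 / η'.1 ∉ K)
    (hS : S K ((v ξ * v η)⁻¹ * (v ξ' * v η'))) : br ξ ξ' ≠ 0 := by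
  intro h0
  obtain ⟨α, β, c1, c2, c3, hE⟩ := hS
  have hαβ := br_ne c1 c2 c3
  have hξη := br_ne a1 a2 a3
  have hξη' := br_ne b1 b2 b3
  -- `ξ' = l ξ`
  obtain ⟨l, rfl⟩ : ∃ l : F, ξ' = (l * ξ.1, l * ξ.2) := by
    refine ⟨ξ'.1 / ξ.1, ?_⟩
    simp only [br] at h0
    ext
    · simp only; field_simp
    · simp only; field_simp; linear_combination h0
  have hw : (v ξ * v η)⁻¹ * (v (l * ξ.1, l * ξ.2) * v η') =
      v (-η) * v (-ξ) * v (l * ξ.1, l * ξ.2) * v η' := by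
    rw [mul_inv_rev, v_inv, v_inv]
    simp only [mul_assoc]
  have hQ : Q (v (-η) * v (-ξ) * v (l * ξ.1, l * ξ.2) * v η') = 0 := by
    rw [← hw, hE, Q_two]
  rw [Q_four] at hQ
  have hl : l ≠ 0 := by
    rintro rfl
    simp at b1
  have e1 : br ξ η ^ 3 * br ξ η' ^ 3 * (l ^ 3 - 1) ^ 2 = 0 := by
    have e4 : (4 : F) ≠ 0 := by
      have : (4 : F) = 2 * 2 := by norm_num
      rw [this]; exact mul_ne_zero h2 h2
    have := (mul_eq_zero.mp hQ).resolve_left e4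
    simp only [br, Prod.fst_neg, Prod.snd_neg] at this ⊢
    linear_combination this
  have hξ' : br ξ η' ≠ 0 := by
    intro h
    apply hξη'
    simp only [br] at h ⊢
    linear_combination l * h
  have e2 : l ^ 3 = 1 := by
    have h5 := (mul_eq_zero.mp e1).resolve_left
      (mul_ne_zero (pow_ne_zero _ hξη) (pow_ne_zero _ hξ'))
    have h6 := pow_eq_zero_iff (two_ne_zero) |>.mp h5
    linear_combination h6
  have e3 : l = 1 := hc l 1 (by rw [e2]; ring)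
  subst e3
  have hξξ : ((1 : F) * ξ.1, (1 : F) * ξ.2) = ξ := by ext <;> simp
  rw [hξξ] at hw hE b3
  -- the word is `v (-η) * v η'`
  have hw2 : (v ξ * v η)⁻¹ * (v ξ * v η') = v (-η) * v η' := by
    rw [mul_inv_rev, v_inv, v_inv, ← v_inv ξ]
    group
  rw [hw2] at hE
  have hs : br (-η) η' ^ 3 = br α β ^ 3 := by
    rw [← v_mul_s, ← v_mul_s, hE]
  have hlab : η.2 / η.1 ∈ K ↔ η'.2 / η'.1 ∈ K := by tauto
  have hne : br (-η) η' ≠ 0 := by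
    intro h
    rw [h] at hs
    apply hαβ
    have : br α β ^ 3 = 0 := by rw [← hs]; ring
    exact pow_eq_zero_iff (three_ne_zero) |>.mp this
  -- directions of `α` and `β`
  have dirs : ∀ γ : F × F, γ.1 ≠ 0 → (br γ (-η) = 0 ∨ br γ η' = 0) →
      (γ.2 / γ.1 ∈ K ↔ η.2 / η.1 ∈ K) := by
    intro γ hγ h
    rcases h with h | h
    · have : br γ η = 0 := by
        rw [br_neg_right] at h
        exact neg_eq_zero.mp h
      rw [div_eq_of_br hγ a2 this]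
    · rw [div_eq_of_br hγ b2 h]
      exact hlab.symm
  have dα := dirs α c1 (dir_of_eq (by rw [hE]) (by rw [hE]) (by rw [hE])
    (by rw [hE]) hne)
  have dβ := dirs β c2 (dir_of_eq (a := -η) (b := η') (c := β) (d := α)
    (by rw [hE]; simp; ring) (by rw [hE]; simp; ring) (by rw [hE]; simp; ring)
    (by rw [hE]; simp; ring) hne)
  tauto

/-- the equation of a triangle -/
lemma star {ξ η ξ' η' : F × F} (h2 : (2 : F) ≠ 0) (hk : br ξ η ≠ 0) (hk' : br ξ' η' ≠ 0)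
    (hQ : Q (v (-η) * v (-ξ) * v ξ' * v η') = 0) :
    (br ξ η' / br ξ' η') ^ 3 + (br ξ' η / br ξ η) ^ 3 + 1 -
      3 * (br ξ η' / br ξ' η') * (br ξ' η / br ξ η) =
    br ξ ξ' ^ 3 * ((br ξ η ^ 3)⁻¹ - (br ξ' η' ^ 3)⁻¹) := by
  rw [Q_four] at hQ
  have e4 : (4 : F) ≠ 0 := by
    have : (4 : F) = 2 * 2 := by norm_num
    rw [this]; exact mul_ne_zero h2 h2
  have h := (mul_eq_zero.mp hQ).resolve_left e4
  have hp := br_plucker ξ ξ' η η'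
  simp only [br_neg_left, br_neg_right, neg_neg] at h
  rw [br_swap η ξ, br_swap η ξ'] at h
  field_simp
  linear_combination h - 3 * br ξ η ^ 2 * br ξ' η' ^ 2 * hp

/-- the direction from one vertex of a triangle to another one -/
lemma ratio {ξ η ξ' η' ζ ζ' : F × F} (h2 : (2 : F) ≠ 0) (hk : br ξ η ≠ 0) (hk' : br ξ' η' ≠ 0)
    (hE : (v ξ * v η)⁻¹ * (v ξ' * v η') = v ζ * v ζ') :
    br η ζ ^ 3 * br ζ ζ' ^ 3 = -(br ξ ξ' ^ 3 * br ξ' η' ^ 3) ∧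
    br ξ ξ' ^ 3 * (br ξ ζ ^ 3 * br ζ ζ' ^ 3) = br ξ η ^ 6 * br ξ' η' ^ 3 *
      ((br ξ' η / br ξ η) ^ 2 - br ξ η' / br ξ' η') ^ 3 := by
  have e4 : (4 : F) ≠ 0 := by
    have : (4 : F) = 2 * 2 := by norm_num
    rw [this]; exact mul_ne_zero h2 h2
  have hw : (v ξ * v η)⁻¹ * (v ξ' * v η') = v (-η) * v (-ξ) * v ξ' * v η' := by
    rw [mul_inv_rev, v_inv, v_inv]
    simp only [mul_assoc]
  have hQ : Q (v (-η) * v (-ξ) * v ξ' * v η') = 0 := by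
    rw [← hw, hE, Q_two]
  have hst := star h2 hk hk' hQ
  constructor
  · have h1 : v η * v ζ * v ζ' = v (-ξ) * v ξ' * v η' := by
      rw [mul_assoc, ← hE, mul_inv_rev, v_inv ξ]
      group
    have h3 := Q_three η ζ ζ'
    rw [h1, Q_three] at h3
    apply mul_left_cancel₀ e4
    rw [br_neg_left] at h3
    linear_combination -h3
  · have h1 : v ξ * v ζ * v ζ' = v ξ * v (-η) * v (-ξ) * v ξ' * v η' := by
      rw [mul_assoc, ← hE, hw]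
      simp only [mul_assoc]
    have h3 := Q_three ξ ζ ζ'
    rw [h1, Q_five] at h3
    have h4 : br ξ ζ ^ 3 * br ζ ζ' ^ 3 = br ξ' η ^ 3 * (br ξ' η' ^ 3 - br ξ η ^ 3) +
        br ξ η ^ 3 * br η η' ^ 3 - br ξ η ^ 3 * br ξ' η' ^ 3 + br ξ η ^ 6 := by
      apply mul_left_cancel₀ e4
      linear_combination -h3
    rw [h4]
    set k := br ξ η with hkdef
    set k' := br ξ' η' with hkdef'
    set D := br ξ ξ' with hD
    obtain ⟨u, hu⟩ : ∃ u, u = br ξ η' / k' := ⟨_, rfl⟩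
    obtain ⟨w, hw'⟩ : ∃ w, w = br ξ' η / k := ⟨_, rfl⟩
    have hY : br ξ' η = w * k := by rw [hw']; field_simp
    have hX : br ξ η' = u * k' := by rw [hu]; field_simp
    have hp := br_plucker ξ ξ' η η'
    rw [← hD, ← hkdef, ← hkdef', hX, hY] at hp
    rw [← hu, ← hw'] at hst ⊢
    rw [hY]
    have hs2 : D ^ 3 * (k' ^ 3 - k ^ 3) = k ^ 3 * k' ^ 3 * (u ^ 3 + w ^ 3 + 1 - 3 * u * w) := by
      rw [hst]; field_simp
    have hDh : D * br η η' = k * k' * (1 - u * w) := by linear_combination hp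
    have hDh3 : D ^ 3 * br η η' ^ 3 = (k * k' * (1 - u * w)) ^ 3 := by
      rw [← hDh]; ring
    linear_combination (w ^ 3 * k ^ 3 - k ^ 3) * hs2 + k ^ 3 * hDh3

include h3 hc in
/-- the form `a ^ 2 + a b + b ^ 2` is anisotropic -/
lemma aniso {a b : F} (h : a ^ 2 + a * b + b ^ 2 = 0) : a = 0 ∧ b = 0 := by
  have h1 : a = b := hc a b (by linear_combination (a - b) * h)
  subst h1
  have h2 : (3 : F) * a ^ 2 = 0 := by linear_combination h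
  have h4 : a = 0 := pow_eq_zero_iff (two_ne_zero) |>.mp ((mul_eq_zero.mp h2).resolve_left h3)
  exact ⟨h4, h4⟩

include h3 hc in
/-- the algebraic core -/
lemma core {D1 D2 D3 u12 u21 u13 u31 u23 u32 l1 l2 l3 : F} (hD1 : D1 ≠ 0)
    (L1 : D1 + D2 * u21 + D3 * u31 = 0) (L2 : D1 * u12 + D2 + D3 * u32 = 0)
    (L3 : D1 * u13 + D2 * u23 + D3 = 0)
    (s12 : u12 ^ 3 + u21 ^ 3 + 1 - 3 * u12 * u21 = D3 ^ 3 * (l1 - l2))
    (s23 : u23 ^ 3 + u32 ^ 3 + 1 - 3 * u23 * u32 = D1 ^ 3 * (l2 - l3))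
    (s31 : u31 ^ 3 + u13 ^ 3 + 1 - 3 * u31 * u13 = D2 ^ 3 * (l3 - l1)) :
    D2 ^ 2 * (u21 ^ 2 - u12) = D3 ^ 2 * (u31 ^ 2 - u13) := by
  obtain ⟨t1, ht1⟩ : ∃ t, t = D2 * u21 := ⟨_, rfl⟩
  obtain ⟨t2, ht2⟩ : ∃ t, t = D3 * u32 := ⟨_, rfl⟩
  obtain ⟨t3, ht3⟩ : ∃ t, t = D1 * u13 := ⟨_, rfl⟩
  have e1 : D3 * u31 = -D1 - t1 := by rw [ht1]; linear_combination L1
  have e2 : D1 * u12 = -D2 - t2 := by rw [ht2]; linear_combination L2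
  have e3 : D2 * u23 = -D3 - t3 := by rw [ht3]; linear_combination L3
  have key : (3 * (D1 ^ 2 * t1 - D2 ^ 2 * t2) + D1 ^ 3 + D3 ^ 3 - 2 * D2 ^ 3) ^ 2 +
      (3 * (D1 ^ 2 * t1 - D2 ^ 2 * t2) + D1 ^ 3 + D3 ^ 3 - 2 * D2 ^ 3) *
      (3 * (D2 ^ 2 * t2 - D3 ^ 2 * t3) + D1 ^ 3 + D2 ^ 3 - 2 * D3 ^ 3) +
      (3 * (D2 ^ 2 * t2 - D3 ^ 2 * t3) + D1 ^ 3 + D2 ^ 3 - 2 * D3 ^ 3) ^ 2 = 0 := by
    have h12 : D1 ^ 3 * D2 ^ 3 * (u12 ^ 3 + u21 ^ 3 + 1 - 3 * u12 * u21) =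
        D2 ^ 3 * (-D2 - t2) ^ 3 + D1 ^ 3 * t1 ^ 3 + D1 ^ 3 * D2 ^ 3 -
          3 * D1 ^ 2 * D2 ^ 2 * (-D2 - t2) * t1 := by
      rw [← e2, ht1]; ring
    have h23 : D2 ^ 3 * D3 ^ 3 * (u23 ^ 3 + u32 ^ 3 + 1 - 3 * u23 * u32) =
        D3 ^ 3 * (-D3 - t3) ^ 3 + D2 ^ 3 * t2 ^ 3 + D2 ^ 3 * D3 ^ 3 -
          3 * D2 ^ 2 * D3 ^ 2 * (-D3 - t3) * t2 := by
      rw [← e3, ht2]; ring
    have h31 : D3 ^ 3 * D1 ^ 3 * (u31 ^ 3 + u13 ^ 3 + 1 - 3 * u31 * u13) =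
        D1 ^ 3 * (-D1 - t1) ^ 3 + D3 ^ 3 * t3 ^ 3 + D3 ^ 3 * D1 ^ 3 -
          3 * D3 ^ 2 * D1 ^ 2 * (-D1 - t1) * t3 := by
      rw [← e1, ht3]; ring
    rw [s12] at h12
    rw [s23] at h23
    rw [s31] at h31
    linear_combination 3 * h12 + 3 * h23 + 3 * h31
  obtain ⟨hA, hB⟩ := aniso h3 hc key
  have hAB : (3 : F) * (2 * (D1 ^ 2 * t1) - D2 ^ 2 * t2 - D3 ^ 2 * t3 + D1 ^ 3 - D2 ^ 3) = 0 := by
    linear_combination 2 * hA + hB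
  have hAB' := (mul_eq_zero.mp hAB).resolve_left h3
  apply mul_left_cancel₀ hD1
  have g1 : D2 ^ 2 * u21 ^ 2 = t1 ^ 2 := by rw [ht1]; ring
  have g2 : D3 ^ 2 * u31 ^ 2 = (-D1 - t1) ^ 2 := by rw [← e1]; ring
  linear_combination D1 * g1 - D1 * g2 - D2 ^ 2 * e2 - D3 ^ 2 * ht3 - hAB'

include h2 h3 hc in
/-- There are no three elements of `S K` all of whose quotients are in `S K`. -/
theorem no_four {K : Set F} {y1 y2 y3 : H F} (hy1 : S K y1) (hy2 : S K y2) (hy3 : S K y3)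
    (h12 : S K (y1⁻¹ * y2)) (h13 : S K (y1⁻¹ * y3)) (h23 : S K (y2⁻¹ * y3)) : False := by
  obtain ⟨ξ1, η1, a1, b1, c1, rfl⟩ := hy1
  obtain ⟨ξ2, η2, a2, b2, c2, rfl⟩ := hy2
  obtain ⟨ξ3, η3, a3, b3, c3, rfl⟩ := hy3
  have hD3 : br ξ1 ξ2 ≠ 0 := tri h2 hc a1 b1 c1 a2 b2 c2 h12
  have hD1 : br ξ2 ξ3 ≠ 0 := tri h2 hc a2 b2 c2 a3 b3 c3 h23
  have hD2' : br ξ1 ξ3 ≠ 0 := tri h2 hc a1 b1 c1 a3 b3 c3 h13
  have hk1 := br_ne a1 b1 c1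
  have hk2 := br_ne a2 b2 c2
  have hk3 := br_ne a3 b3 c3
  obtain ⟨ζ, ζ', p1, q1, r1, E12⟩ := h12
  obtain ⟨χ, χ', p2, q2, r2, E13⟩ := h13
  obtain ⟨θ, θ', p3, q3, r3, E23⟩ := h23
  -- the triangle at `y1`
  have hζχ : br ζ χ ≠ 0 := by
    refine tri h2 hc p1 q1 r1 p2 q2 r2 (K := K) ?_
    rw [← E12, ← E13]
    refine ⟨θ, θ', p3, q3, r3, ?_⟩
    rw [← E23]
    group
  apply hζχ
  -- quartic form of the quotients
  have hw : ∀ ξ η ξ' η' α β : F × F, (v ξ * v η)⁻¹ * (v ξ' * v η') = v α * v β →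
      Q (v (-η) * v (-ξ) * v ξ' * v η') = 0 := by
    intro ξ η ξ' η' α β h
    have hw : (v ξ * v η)⁻¹ * (v ξ' * v η') = v (-η) * v (-ξ) * v ξ' * v η' := by
      rw [mul_inv_rev, v_inv, v_inv]
      simp only [mul_assoc]
    rw [← hw, h, Q_two]
  have s12 := star h2 hk1 hk2 (hw _ _ _ _ _ _ E12)
  have s13 := star h2 hk1 hk3 (hw _ _ _ _ _ _ E13)
  have s23 := star h2 hk2 hk3 (hw _ _ _ _ _ _ E23)
  have hcore := core h3 hc (D1 := br ξ2 ξ3) (D2 := br ξ3 ξ1) (D3 := br ξ1 ξ2)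
    (u12 := br ξ1 η2 / br ξ2 η2) (u21 := br ξ2 η1 / br ξ1 η1)
    (u13 := br ξ1 η3 / br ξ3 η3) (u31 := br ξ3 η1 / br ξ1 η1)
    (u23 := br ξ2 η3 / br ξ3 η3) (u32 := br ξ3 η2 / br ξ2 η2)
    (l1 := (br ξ1 η1 ^ 3)⁻¹) (l2 := (br ξ2 η2 ^ 3)⁻¹) (l3 := (br ξ3 η3 ^ 3)⁻¹)
    hD1
    (by
      have h : br ξ2 ξ3 * br ξ1 η1 + br ξ3 ξ1 * br ξ2 η1 + br ξ1 ξ2 * br ξ3 η1 = 0 := by
        simp only [br]; ring
      field_simp
      linear_combination h)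
    (by
      have h : br ξ2 ξ3 * br ξ1 η2 + br ξ3 ξ1 * br ξ2 η2 + br ξ1 ξ2 * br ξ3 η2 = 0 := by
        simp only [br]; ring
      field_simp
      linear_combination h)
    (by
      have h : br ξ2 ξ3 * br ξ1 η3 + br ξ3 ξ1 * br ξ2 η3 + br ξ1 ξ2 * br ξ3 η3 = 0 := by
        simp only [br]; ring
      field_simp
      linear_combination h)
    s12 s23
    (by
      rw [br_swap ξ3 ξ1]
      linear_combination s13)
  obtain ⟨i12, j12⟩ := ratio h2 hk1 hk2 E12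
  obtain ⟨i13, j13⟩ := ratio h2 hk1 hk3 E13
  have hP : br ζ ζ' ≠ 0 := br_ne p1 q1 r1
  have hR : br χ χ' ≠ 0 := br_ne p2 q2 r2
  have hD2 : br ξ3 ξ1 ≠ 0 := by
    rw [br_swap]; exact neg_ne_zero.mpr hD2'
  set a := (br ξ2 η1 / br ξ1 η1) ^ 2 - br ξ1 η2 / br ξ2 η2 with ha
  set b := (br ξ3 η1 / br ξ1 η1) ^ 2 - br ξ1 η3 / br ξ3 η3 with hb
  have hcore3 : br ξ3 ξ1 ^ 6 * a ^ 3 = br ξ1 ξ2 ^ 6 * b ^ 3 := by
    calc br ξ3 ξ1 ^ 6 * a ^ 3 = (br ξ3 ξ1 ^ 2 * a) ^ 3 := by ring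
      _ = (br ξ1 ξ2 ^ 2 * b) ^ 3 := by rw [hcore]
      _ = _ := by ring
  rw [br_swap ξ1 ξ3] at i13 j13
  have hcube : (br η1 ζ * br ξ1 χ) ^ 3 = (br η1 χ * br ξ1 ζ) ^ 3 := by
    have hne : br ζ ζ' ^ 3 * br χ χ' ^ 3 * (br ξ3 ξ1 ^ 3 * br ξ1 ξ2 ^ 3) ≠ 0 :=
      mul_ne_zero (mul_ne_zero (pow_ne_zero _ hP) (pow_ne_zero _ hR))
        (mul_ne_zero (pow_ne_zero _ hD2) (pow_ne_zero _ hD3))
    apply mul_right_cancel₀ hne
    have e1 : (br η1 ζ * br ξ1 χ) ^ 3 *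
        (br ζ ζ' ^ 3 * br χ χ' ^ 3 * (br ξ3 ξ1 ^ 3 * br ξ1 ξ2 ^ 3)) =
        br ξ1 ξ2 ^ 3 * (br η1 ζ ^ 3 * br ζ ζ' ^ 3) *
          (br ξ3 ξ1 ^ 3 * (br ξ1 χ ^ 3 * br χ χ' ^ 3)) := by ring
    have e2 : (br η1 χ * br ξ1 ζ) ^ 3 *
        (br ζ ζ' ^ 3 * br χ χ' ^ 3 * (br ξ3 ξ1 ^ 3 * br ξ1 ξ2 ^ 3)) =
        br ξ3 ξ1 ^ 3 * (br η1 χ ^ 3 * br χ χ' ^ 3) *
          (br ξ1 ξ2 ^ 3 * (br ξ1 ζ ^ 3 * br ζ ζ' ^ 3)) := by ring
    have j13' : br ξ3 ξ1 ^ 3 * (br ξ1 χ ^ 3 * br χ χ' ^ 3) =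
        -(br ξ1 η1 ^ 6 * br ξ3 η3 ^ 3 * b ^ 3) := by linear_combination -j13
    rw [e1, e2, i12, j13', i13, j12]
    linear_combination (-(br ξ1 η1 ^ 6 * br ξ2 η2 ^ 3 * br ξ3 η3 ^ 3)) * hcore3
  have hlin : br η1 ζ * br ξ1 χ = br η1 χ * br ξ1 ζ := hc _ _ hcube
  have hp := br_plucker ξ1 η1 ζ χ
  have h0 : br ξ1 η1 * br ζ χ = 0 := by linear_combination hp - hlin
  exact (mul_eq_zero.mp h0).resolve_left hk1

end

end Pool.Agent.Hex4
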