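import Pool.Agent.Hex4.Graph

/-!
# Optimal pseudorandom `K_4`-free graphs over prime fields
-/

set_option autoImplicit false

open Finset

namespace Pool.Agent.Hex4

/-- for `p = 2 mod 3` cubing is injective on the prime field -/
lemma cube_inj (p : ℕ) [Fact p.Prime] (hp : p % 3 = 2) (x y : ZMod p) (h : x ^ 3 = y ^ 3) :
    x = y := by
  have hp2 : 2 ≤ p := (Fact.out : p.Prime).two_le
  obtain ⟨k, hk⟩ : ∃ k, p = 3 * k + 2 := ⟨p / 3, by omega⟩
  have key : ∀ z : ZMod p, z = (z ^ 3) ^ (2 * k + 1) := by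
    intro z
    rcases eq_or_ne z 0 with rfl | hz
    · rw [zero_pow (by norm_num), zero_pow (by omega)]
    · have h1 : z ^ (3 * k + 1) = 1 := by
        have := ZMod.pow_card_sub_one_eq_one hz
        rwa [show p - 1 = 3 * k + 1 by omega] at this
      calc z = (z ^ (3 * k + 1)) ^ 2 * z := by rw [h1]; ring
        _ = (z ^ 3) ^ (2 * k + 1) := by ring
  rw [key x, key y, h]

open Classical in
/-- the graph over the prime field with `p` elements -/
theorem prime_case (p : ℕ) (hp : p.Prime) (h5 : 5 ≤ p) (h3 : p % 3 = 2) :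
    ∃ G : SimpleGraph (Fin (p ^ 5)), ∃ d : ℕ,
      G.IsRegularOfDegree d ∧
      G.CliqueFree 4 ∧
      (1 / 4 : ℝ) * ((p ^ 5 : ℕ) : ℝ) ^ ((1 : ℝ) - 1 / 5) ≤ (d : ℝ) ∧
      ∀ x : Fin (p ^ 5) → ℝ, (∑ i, x i) = 0 →
        |∑ i, ∑ j, (if G.Adj i j then x i * x j else 0)|
          ≤ 300 * Real.sqrt (d : ℝ) * ∑ i, x i ^ 2 := by
  have : Fact p.Prime := ⟨hp⟩
  have two_ne : (2 : ZMod p) ≠ 0 := by
    intro h
    have : (p : ℕ) ∣ 2 := (ZMod.natCast_eq_zero_iff 2 p).mp (by exact_mod_cast h)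
    have := Nat.le_of_dvd (by norm_num) this
    omega
  have three_ne : (3 : ZMod p) ≠ 0 := by
    intro h
    have : (p : ℕ) ∣ 3 := (ZMod.natCast_eq_zero_iff 3 p).mp (by exact_mod_cast h)
    have := Nat.le_of_dvd (by norm_num) this
    omega
  obtain ⟨r, hr⟩ : ∃ r, p = 2 * r + 1 := by
    rcases hp.eq_two_or_odd with h | h
    · omega
    · exact ⟨p / 2, by omega⟩
  obtain ⟨K, -, hK⟩ := Finset.exists_subset_card_eq
    (s := (Finset.univ : Finset (ZMod p))) (n := r) (by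
      rw [Finset.card_univ, ZMod.card]; omega)
  have hcard : Fintype.card (ZMod p) = p := ZMod.card p
  have hd : (I K).card = 8 * r ^ 3 * (r + 1) := by
    rw [card_I, hcard, hK, show p - r = r + 1 by omega, show p - 1 = 2 * r by omega]
    ring
  have hn : Fintype.card (ZMod p × ZMod p × ZMod p × ZMod p × ZMod p) = p ^ 5 := by
    simp only [Fintype.card_prod, hcard]
    ring
  obtain ⟨H, h1, h2, h4⟩ := PRK.transport (G K) (p ^ 5) (8 * r ^ 3 * (r + 1)) 4
    (148 * (p : ℝ) ^ 2) hn (fun v => by rw [degree two_ne K v, hd])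
    (cliqueFree two_ne three_ne (cube_inj p h3) K)
    (fun f hf => by
      have := form_bound two_ne (ZMod.stdAddChar (N := p)) (ZMod.isPrimitive_stdAddChar p)
        three_ne K f hf
      rwa [hcard] at this)
  have hr2 : (2 : ℝ) ≤ r := by
    have : 2 ≤ r := by omega
    exact_mod_cast this
  have hpr : (p : ℝ) = 2 * r + 1 := by exact_mod_cast hr
  have hdeg : (1 / 4 : ℝ) * (p : ℝ) ^ 4 ≤ ((8 * r ^ 3 * (r + 1) : ℕ) : ℝ) := by
    push_cast
    rw [hpr]
    nlinarith [mul_nonneg (sub_nonneg.mpr hr2) (pow_nonneg (by linarith : (0:ℝ) ≤ r) 3),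
      mul_nonneg (sub_nonneg.mpr hr2) (pow_nonneg (by linarith : (0:ℝ) ≤ r) 2),
      mul_nonneg (sub_nonneg.mpr hr2) (pow_nonneg (by linarith : (0:ℝ) ≤ r) 1)]
  refine ⟨H, 8 * r ^ 3 * (r + 1), h1, h2, ?_, ?_⟩
  · refine le_trans (le_of_eq ?_) hdeg
    congr 1
    rw [Nat.cast_pow, ← Real.rpow_natCast, ← Real.rpow_mul (Nat.cast_nonneg p),
      ← Real.rpow_natCast]
    congr 1
    norm_num
  · intro x hx
    refine le_trans (le_of_eq ?_) ((h4 x hx).trans ?_)
    · congr 1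
    · refine mul_le_mul_of_nonneg_right ?_ (Finset.sum_nonneg fun _ _ => sq_nonneg _)
      have h6 : (1 / 2 : ℝ) * (p : ℝ) ^ 2 ≤ Real.sqrt ((8 * r ^ 3 * (r + 1) : ℕ) : ℝ) := by
        apply Real.le_sqrt_of_sq_le
        refine le_trans (le_of_eq ?_) hdeg
        ring
      nlinarith [Real.sqrt_nonneg ((8 * r ^ 3 * (r + 1) : ℕ) : ℝ)]

end Pool.Agent.Hex4
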