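import Mathlib

/-!
# The spectral part

A bound for the sums of a function over the lines of the affine part of the dual split Cayley
hexagon.
-/

set_option autoImplicit false

open Finset

namespace Pool.Agent.Hex4

variable {F : Type*} [Field F] [Fintype F] [DecidableEq F]

section

variable (ψ : AddChar F ℂ) (hψ : ψ.IsPrimitive)

include hψ in
lemma psi_sum (t : F) : ∑ x : F, ψ (x * t) = if t = 0 then (Fintype.card F : ℂ) else 0 := by
  rw [AddChar.sum_mulShift t hψ]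
  split_ifs <;> simp

omit [DecidableEq F] in
lemma psi_norm (x : F) : ‖ψ x‖ = 1 := AddChar.norm_apply ψ x

include hψ in
/-- Parseval in one variable -/
lemma parseval (g : F → ℂ) :
    ∑ z : F, ‖∑ a : F, g a * ψ (z * a)‖ ^ 2 = (Fintype.card F : ℝ) * ∑ a : F, ‖g a‖ ^ 2 := by
  have key : ((∑ z : F, ‖∑ a : F, g a * ψ (z * a)‖ ^ 2 : ℝ) : ℂ) =
      (((Fintype.card F : ℝ) * ∑ a : F, ‖g a‖ ^ 2 : ℝ) : ℂ) := by
    push_cast
    have e1 : ∀ w : ℂ, ((‖w‖ : ℂ)) ^ 2 = w * (starRingEnd ℂ) w := by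
      intro w
      rw [Complex.mul_conj, Complex.normSq_eq_norm_sq]
      push_cast
      rfl
    simp only [e1, map_sum, map_mul, Finset.sum_mul_sum]
    calc ∑ z : F, ∑ a : F, ∑ b : F, g a * ψ (z * a) * ((starRingEnd ℂ) (g b) *
            (starRingEnd ℂ) (ψ (z * b)))
        = ∑ a : F, ∑ b : F, g a * (starRingEnd ℂ) (g b) * ∑ z : F, ψ (z * (a - b)) := by
          rw [Finset.sum_comm]
          refine Finset.sum_congr rfl fun a _ => ?_
          rw [Finset.sum_comm]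
          refine Finset.sum_congr rfl fun b _ => ?_
          rw [Finset.mul_sum]
          refine Finset.sum_congr rfl fun z _ => ?_
          have h1 : (starRingEnd ℂ) (ψ (z * b)) = ψ (-(z * b)) := by
            rw [AddChar.map_neg_eq_conj]
          rw [h1, mul_sub, sub_eq_add_neg, AddChar.map_add_eq_mul]
          ring
      _ = ∑ a : F, ∑ b : F, g a * (starRingEnd ℂ) (g b) *
            (if a - b = 0 then (Fintype.card F : ℂ) else 0) := by
          simp only [psi_sum ψ hψ]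
      _ = (Fintype.card F : ℂ) * ∑ a : F, g a * (starRingEnd ℂ) (g a) := by
          rw [Finset.mul_sum]
          refine Finset.sum_congr rfl fun a _ => ?_
          rw [Finset.sum_eq_single a]
          · rw [sub_self, if_pos rfl]; ring
          · intro b _ hb
            rw [if_neg (sub_ne_zero.mpr (Ne.symm hb)), mul_zero]
          · simp
  exact_mod_cast key

/-- the Fourier transform in two variables -/
noncomputable def F2 (f : F → F → ℂ) (ξ ζ : F) : ℂ :=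
  ∑ X : F, ∑ Y : F, f X Y * ψ (ξ * X + ζ * Y)

include hψ in
lemma parseval2 (f : F → F → ℂ) :
    ∑ ζ : F, ∑ ξ : F, ‖F2 ψ f ξ ζ‖ ^ 2 =
      (Fintype.card F : ℝ) ^ 2 * ∑ X : F, ∑ Y : F, ‖f X Y‖ ^ 2 := by
  have h1 : ∀ ζ : F, ∑ ξ : F, ‖F2 ψ f ξ ζ‖ ^ 2 =
      (Fintype.card F : ℝ) * ∑ X : F, ‖∑ Y : F, f X Y * ψ (ζ * Y)‖ ^ 2 := by
    intro ζ
    rw [← parseval ψ hψ]
    refine Finset.sum_congr rfl fun ξ _ => ?_
    congr 2
    unfold F2
    refine Finset.sum_congr rfl fun X _ => ?_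
    rw [Finset.sum_mul]
    refine Finset.sum_congr rfl fun Y _ => ?_
    rw [AddChar.map_add_eq_mul]; ring
  simp only [h1]
  rw [← Finset.mul_sum, Finset.sum_comm, pow_two, mul_assoc]
  congr 1
  rw [Finset.mul_sum]
  refine Finset.sum_congr rfl fun X _ => ?_
  rw [parseval ψ hψ]

include hψ in
/-- Parseval along the lines of slope `m` -/
lemma line_parseval (f : F → F → ℂ) (m c : F) :
    (Fintype.card F : ℝ) * ∑ n : F, ‖∑ X : F, f X (m * X + n) * ψ (c * X)‖ ^ 2 =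
      ∑ ζ : F, ‖F2 ψ f (c - ζ * m) ζ‖ ^ 2 := by
  rw [← parseval ψ hψ]
  refine Finset.sum_congr rfl fun ζ _ => ?_
  congr 2
  unfold F2
  simp only [Finset.sum_mul]
  rw [Finset.sum_comm]
  refine Finset.sum_congr rfl fun X _ => ?_
  rw [← Equiv.sum_comp (Equiv.addLeft (m * X)) (fun Y => f X Y * ψ ((c - ζ * m) * X + ζ * Y))]
  refine Finset.sum_congr rfl fun n _ => ?_
  simp only [Equiv.coe_addLeft]
  rw [mul_assoc, ← AddChar.map_add_eq_mul]
  congr 2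
  ring

/-- a cubic takes every value at most three times -/
lemma card_fiber (c1 c2 c3 ξ : F) (h : c1 ≠ 0 ∨ c2 ≠ 0 ∨ c3 ≠ 0) :
    (univ.filter (fun a : F => c3 * a ^ 3 + c2 * a ^ 2 + c1 * a = ξ)).card ≤ 3 := by
  classical
  set P : Polynomial F := Polynomial.C c3 * Polynomial.X ^ 3 + Polynomial.C c2 * Polynomial.X ^ 2 +
    Polynomial.C c1 * Polynomial.X + Polynomial.C (-ξ) with hP
  have hc1 : P.coeff 1 = c1 := by
    simp [hP, Polynomial.coeff_X, Polynomial.coeff_C, Polynomial.coeff_X_pow]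
  have hc2 : P.coeff 2 = c2 := by
    simp [hP, Polynomial.coeff_X, Polynomial.coeff_C, Polynomial.coeff_X_pow]
  have hc3 : P.coeff 3 = c3 := by
    simp [hP, Polynomial.coeff_X, Polynomial.coeff_C, Polynomial.coeff_X_pow]
  have hP0 : P ≠ 0 := by
    intro h0
    rw [h0] at hc1 hc2 hc3
    simp only [Polynomial.coeff_zero] at hc1 hc2 hc3
    rcases h with h | h | h
    · exact h hc1.symm
    · exact h hc2.symm
    · exact h hc3.symm
  have hdeg : P.natDegree ≤ 3 := by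
    rw [hP]
    compute_degree
  calc (univ.filter (fun a : F => c3 * a ^ 3 + c2 * a ^ 2 + c1 * a = ξ)).card
      ≤ P.roots.toFinset.card := by
        apply Finset.card_le_card
        intro a ha
        rw [Finset.mem_filter] at ha
        rw [Multiset.mem_toFinset, Polynomial.mem_roots hP0, Polynomial.IsRoot.def]
        simp only [hP, Polynomial.eval_add, Polynomial.eval_mul, Polynomial.eval_C,
          Polynomial.eval_pow, Polynomial.eval_X]
        linear_combination ha.2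
    _ ≤ Multiset.card P.roots := Multiset.toFinset_card_le _
    _ ≤ P.natDegree := Polynomial.card_roots' P
    _ ≤ 3 := hdeg

lemma sum_fiber (c1 c2 c3 : F) (h : c1 ≠ 0 ∨ c2 ≠ 0 ∨ c3 ≠ 0) (g : F → ℝ) (hg : ∀ x, 0 ≤ g x) :
    ∑ a : F, g (c3 * a ^ 3 + c2 * a ^ 2 + c1 * a) ≤ 3 * ∑ ξ : F, g ξ := by
  classical
  rw [← Finset.sum_fiberwise_of_maps_to
    (g := fun a : F => c3 * a ^ 3 + c2 * a ^ 2 + c1 * a) (t := univ) (fun a _ => Finset.mem_univ _)]
  rw [Finset.mul_sum]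
  refine Finset.sum_le_sum fun ξ _ => ?_
  calc ∑ a ∈ univ.filter (fun a : F => c3 * a ^ 3 + c2 * a ^ 2 + c1 * a = ξ),
        g (c3 * a ^ 3 + c2 * a ^ 2 + c1 * a)
      = ∑ a ∈ univ.filter (fun a : F => c3 * a ^ 3 + c2 * a ^ 2 + c1 * a = ξ), g ξ := by
        refine Finset.sum_congr rfl fun a ha => ?_
        rw [(Finset.mem_filter.mp ha).2]
    _ = ((univ.filter (fun a : F => c3 * a ^ 3 + c2 * a ^ 2 + c1 * a = ξ)).card : ℝ) * g ξ := by
        rw [Finset.sum_const, nsmul_eq_mul]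
    _ ≤ 3 * g ξ := by
        apply mul_le_mul_of_nonneg_right _ (hg ξ)
        exact_mod_cast card_fiber c1 c2 c3 ξ h

include hψ in
/-- the case of trivial central character -/
lemma spec_zero (f : F → F → ℂ) (e2 e3 : F)
    (h : (e2 ≠ 0 ∨ e3 ≠ 0) ∨ ∑ X : F, ∑ Y : F, f X Y = 0) :
    ∑ a : F, ∑ n : F, ‖∑ X : F, f X (a * X + n) * ψ ((-e2 * a ^ 2 - e3 * a ^ 3) * X)‖ ^ 2 ≤
      3 * (Fintype.card F : ℝ) * ∑ X : F, ∑ Y : F, ‖f X Y‖ ^ 2 := by
  have hq : (0 : ℝ) < Fintype.card F := by exact_mod_cast Fintype.card_pos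
  have h1 : (Fintype.card F : ℝ) * ∑ a : F, ∑ n : F,
      ‖∑ X : F, f X (a * X + n) * ψ ((-e2 * a ^ 2 - e3 * a ^ 3) * X)‖ ^ 2 =
      ∑ ζ : F, ∑ a : F, ‖F2 ψ f (-e2 * a ^ 2 - e3 * a ^ 3 - ζ * a) ζ‖ ^ 2 := by
    rw [Finset.mul_sum, Finset.sum_comm (s := univ) (t := univ) (f := fun ζ a =>
      ‖F2 ψ f (-e2 * a ^ 2 - e3 * a ^ 3 - ζ * a) ζ‖ ^ 2)]
    refine Finset.sum_congr rfl fun a _ => ?_
    exact line_parseval ψ hψ f a _
  have h2 : ∑ ζ : F, ∑ a : F, ‖F2 ψ f (-e2 * a ^ 2 - e3 * a ^ 3 - ζ * a) ζ‖ ^ 2 ≤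
      3 * ∑ ζ : F, ∑ ξ : F, ‖F2 ψ f ξ ζ‖ ^ 2 := by
    rw [Finset.mul_sum]
    refine Finset.sum_le_sum fun ζ _ => ?_
    by_cases hz : ζ ≠ 0 ∨ e2 ≠ 0 ∨ e3 ≠ 0
    · have h3 := sum_fiber (-ζ) (-e2) (-e3) (by simpa using hz)
        (fun ξ => ‖F2 ψ f ξ ζ‖ ^ 2) (fun _ => by positivity)
      refine le_trans (le_of_eq ?_) h3
      refine Finset.sum_congr rfl fun a _ => ?_
      congr 3
      ring
    · push Not at hz
      obtain ⟨hz1, hz2, hz3⟩ := hz
      have h4 : ∑ X : F, ∑ Y : F, f X Y = 0 := by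
        rcases h with h | h
        · rcases h with h | h
          · exact absurd hz2 h
          · exact absurd hz3 h
        · exact h
      have h5 : F2 ψ f 0 0 = 0 := by
        unfold F2
        simpa using h4
      have h6 : ∀ a : F, ‖F2 ψ f (-e2 * a ^ 2 - e3 * a ^ 3 - ζ * a) ζ‖ ^ 2 = 0 := by
        intro a
        rw [hz1, hz2, hz3]
        simp [h5]
      simp only [h6, Finset.sum_const_zero]
      positivity
  rw [parseval2 ψ hψ] at h2
  rw [← h1] at h2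
  have h7 : (Fintype.card F : ℝ) * ∑ a : F, ∑ n : F,
      ‖∑ X : F, f X (a * X + n) * ψ ((-e2 * a ^ 2 - e3 * a ^ 3) * X)‖ ^ 2 ≤
      (Fintype.card F : ℝ) * (3 * (Fintype.card F : ℝ) * ∑ X : F, ∑ Y : F, ‖f X Y‖ ^ 2) := by
    refine h2.trans (le_of_eq ?_)
    ring
  exact le_of_mul_le_mul_left h7 hq

/-- the quadratic form for the central character `σ` -/
noncomputable def QS (σ : F) (f : F → F → ℂ) : ℝ :=
  ∑ a : F, ∑ n : F, ‖∑ X : F, f X (a * X + n) * ψ (σ * a ^ 2 * X * (a * X + 3 * n))‖ ^ 2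

include hψ in
/-- functions vanishing on `X = 0` -/
lemma spec_one (σ : F) (hσ : σ ≠ 0) (f : F → F → ℂ) (hf : ∀ Y, f 0 Y = 0) :
    QS ψ σ f ≤ 3 * (Fintype.card F : ℝ) * ∑ X : F, ∑ Y : F, ‖f X Y‖ ^ 2 := by
  have hq : (0 : ℝ) < Fintype.card F := by exact_mod_cast Fintype.card_pos
  set g : F → F → ℂ := fun w v => f w⁻¹ (v * w⁻¹) * ψ (σ * v ^ 3 * w⁻¹ ^ 2) with hg
  -- the sum over a line
  have h1 : ∀ a n : F, ‖∑ X : F, f X (a * X + n) * ψ (σ * a ^ 2 * X * (a * X + 3 * n))‖ =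
      ‖∑ w : F, g w (n * w + a) * ψ ((-σ * n ^ 3) * w)‖ := by
    intro a n
    have h2 : ∑ X : F, f X (a * X + n) * ψ (σ * a ^ 2 * X * (a * X + 3 * n)) =
        ψ (-(3 * σ * a * n ^ 2)) * ∑ w : F, g w (n * w + a) * ψ ((-σ * n ^ 3) * w) := by
      rw [← Equiv.sum_comp (Equiv.inv F)
        (fun X => f X (a * X + n) * ψ (σ * a ^ 2 * X * (a * X + 3 * n))), Finset.mul_sum]
      refine Finset.sum_congr rfl fun w _ => ?_
      simp only [Equiv.inv_apply, hg]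
      by_cases hw : w = 0
      · subst hw
        simp [hf]
      · have e1 : (n * w + a) * w⁻¹ = a * w⁻¹ + n := by field_simp; ring
        rw [e1]
        have e2 : ψ (-(3 * σ * a * n ^ 2)) * (f w⁻¹ (a * w⁻¹ + n) *
            ψ (σ * (n * w + a) ^ 3 * w⁻¹ ^ 2) * ψ (-σ * n ^ 3 * w)) =
            f w⁻¹ (a * w⁻¹ + n) * ψ (-(3 * σ * a * n ^ 2) + σ * (n * w + a) ^ 3 * w⁻¹ ^ 2 +
              -σ * n ^ 3 * w) := by
          rw [AddChar.map_add_eq_mul, AddChar.map_add_eq_mul]; ring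
        rw [e2]
        congr 2
        field_simp
        ring
    rw [h2, norm_mul, psi_norm, one_mul]
  have h3 : (Fintype.card F : ℝ) * QS ψ σ f =
      ∑ ζ : F, ∑ n : F, ‖F2 ψ g (-σ * n ^ 3 - ζ * n) ζ‖ ^ 2 := by
    unfold QS
    simp only [h1]
    rw [Finset.sum_comm, Finset.mul_sum, Finset.sum_comm (s := univ) (t := univ) (f := fun ζ n =>
      ‖F2 ψ g (-σ * n ^ 3 - ζ * n) ζ‖ ^ 2)]
    refine Finset.sum_congr rfl fun n _ => ?_
    exact line_parseval ψ hψ g n _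
  have h4 : ∑ ζ : F, ∑ n : F, ‖F2 ψ g (-σ * n ^ 3 - ζ * n) ζ‖ ^ 2 ≤
      3 * ∑ ζ : F, ∑ ξ : F, ‖F2 ψ g ξ ζ‖ ^ 2 := by
    rw [Finset.mul_sum]
    refine Finset.sum_le_sum fun ζ _ => ?_
    have h5 := sum_fiber (-ζ) 0 (-σ) (by simp [hσ])
      (fun ξ => ‖F2 ψ g ξ ζ‖ ^ 2) (fun _ => by positivity)
    refine le_trans (le_of_eq ?_) h5
    refine Finset.sum_congr rfl fun a _ => ?_
    congr 3
    ring
  rw [parseval2 ψ hψ, ← h3] at h4
  have h6 : ∑ w : F, ∑ v : F, ‖g w v‖ ^ 2 ≤ ∑ X : F, ∑ Y : F, ‖f X Y‖ ^ 2 := by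
    rw [← Equiv.sum_comp (Equiv.inv F) (fun X => ∑ Y : F, ‖f X Y‖ ^ 2)]
    refine Finset.sum_le_sum fun w _ => ?_
    simp only [Equiv.inv_apply, hg, norm_mul, psi_norm, mul_one]
    by_cases hw : w = 0
    · subst hw
      simp [hf]
    · rw [← Equiv.sum_comp (Equiv.mulRight₀ w⁻¹ (inv_ne_zero hw)) (fun Y => ‖f w⁻¹ Y‖ ^ 2)]
      apply le_of_eq
      refine Finset.sum_congr rfl fun v _ => ?_
      simp
  have h7 : (Fintype.card F : ℝ) * QS ψ σ f ≤
      (Fintype.card F : ℝ) * (3 * (Fintype.card F : ℝ) * ∑ X : F, ∑ Y : F, ‖f X Y‖ ^ 2) := by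
    refine h4.trans ?_
    have h8 : (Fintype.card F : ℝ) ^ 2 * ∑ X : F, ∑ Y : F, ‖g X Y‖ ^ 2 ≤
        (Fintype.card F : ℝ) ^ 2 * ∑ X : F, ∑ Y : F, ‖f X Y‖ ^ 2 :=
      mul_le_mul_of_nonneg_left h6 (by positivity)
    nlinarith
  exact le_of_mul_le_mul_left h7 hq

include hψ in
lemma spec_two (σ : F) (hσ : σ ≠ 0) (f : F → F → ℂ) :
    QS ψ σ f ≤ 6 * (Fintype.card F : ℝ) * ∑ X : F, ∑ Y : F, ‖f X Y‖ ^ 2 := by
  have hq : (0 : ℝ) < Fintype.card F := by exact_mod_cast Fintype.card_pos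
  set f1 : F → F → ℂ := fun X Y => if X = 0 then 0 else f X Y with hf1
  set f0 : F → F → ℂ := fun X Y => if X = 0 then f X Y else 0 with hf0
  have hsum : ∀ X Y, f X Y = f1 X Y + f0 X Y := by
    intro X Y
    simp only [hf1, hf0]
    split_ifs <;> simp
  have h1 := spec_one ψ hψ σ hσ f1 (by intro Y; simp [hf1])
  -- the part on `X = 0`
  have h0 : QS ψ σ f0 = (Fintype.card F : ℝ) * ∑ Y : F, ‖f 0 Y‖ ^ 2 := by
    unfold QS
    have : ∀ a : F, ∑ n : F,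
        ‖∑ X : F, f0 X (a * X + n) * ψ (σ * a ^ 2 * X * (a * X + 3 * n))‖ ^ 2 =
        ∑ Y : F, ‖f 0 Y‖ ^ 2 := by
      intro a
      refine Finset.sum_congr rfl fun n _ => ?_
      rw [Finset.sum_eq_single (0 : F)]
      · simp [hf0]
      · intro X _ hX
        simp [hf0, hX]
      · simp
    simp only [this, Finset.sum_const, Finset.card_univ, nsmul_eq_mul]
  have h2 : QS ψ σ f ≤ 2 * QS ψ σ f1 + 2 * QS ψ σ f0 := by
    unfold QS
    rw [Finset.mul_sum, Finset.mul_sum, ← Finset.sum_add_distrib]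
    refine Finset.sum_le_sum fun a _ => ?_
    rw [Finset.mul_sum, Finset.mul_sum, ← Finset.sum_add_distrib]
    refine Finset.sum_le_sum fun n _ => ?_
    have e : ∑ X : F, f X (a * X + n) * ψ (σ * a ^ 2 * X * (a * X + 3 * n)) =
        (∑ X : F, f1 X (a * X + n) * ψ (σ * a ^ 2 * X * (a * X + 3 * n))) +
        ∑ X : F, f0 X (a * X + n) * ψ (σ * a ^ 2 * X * (a * X + 3 * n)) := by
      rw [← Finset.sum_add_distrib]
      refine Finset.sum_congr rfl fun X _ => ?_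
      rw [hsum]; ring
    rw [e]
    generalize (∑ X : F, f1 X (a * X + n) * ψ (σ * a ^ 2 * X * (a * X + 3 * n))) = A
    generalize (∑ X : F, f0 X (a * X + n) * ψ (σ * a ^ 2 * X * (a * X + 3 * n))) = B
    have h3 : ‖A + B‖ ≤ ‖A‖ + ‖B‖ := norm_add_le A B
    nlinarith [norm_nonneg (A + B), norm_nonneg A, norm_nonneg B, sq_nonneg (‖A‖ - ‖B‖)]
  have h4 : ∑ X : F, ∑ Y : F, ‖f X Y‖ ^ 2 =
      (∑ X : F, ∑ Y : F, ‖f1 X Y‖ ^ 2) + ∑ Y : F, ‖f 0 Y‖ ^ 2 := by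
    rw [← Finset.add_sum_erase univ (fun X => ∑ Y : F, ‖f X Y‖ ^ 2) (Finset.mem_univ (0 : F)),
      ← Finset.add_sum_erase univ (fun X => ∑ Y : F, ‖f1 X Y‖ ^ 2) (Finset.mem_univ (0 : F))]
    have e1 : ∑ Y : F, ‖f1 0 Y‖ ^ 2 = 0 := by simp [hf1]
    have e2 : ∑ X ∈ univ.erase (0 : F), ∑ Y : F, ‖f1 X Y‖ ^ 2 =
        ∑ X ∈ univ.erase (0 : F), ∑ Y : F, ‖f X Y‖ ^ 2 := by
      refine Finset.sum_congr rfl fun X hX => ?_
      have hX0 : X ≠ 0 := Finset.ne_of_mem_erase hX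
      simp [hf1, hX0]
    rw [e1, e2]; ring
  have h5 : 0 ≤ ∑ Y : F, ‖f 0 Y‖ ^ 2 := Finset.sum_nonneg fun _ _ => by positivity
  have h6 : 0 ≤ ∑ X : F, ∑ Y : F, ‖f1 X Y‖ ^ 2 :=
    Finset.sum_nonneg fun _ _ => Finset.sum_nonneg fun _ _ => by positivity
  rw [h4]
  rw [h0] at h2
  nlinarith [mul_nonneg hq.le h5, mul_nonneg hq.le h6]

include hψ in
/-- nontrivial central character -/
lemma spec_three (h3 : (3 : F) ≠ 0) (σ e2 e3 : F) (hσ : σ ≠ 0) (f : F → F → ℂ) :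
    ∑ a : F, ∑ n : F, ‖∑ X : F, f X (a * X + n) *
        ψ (-e2 * a ^ 2 * X - e3 * a ^ 3 * X + σ * a ^ 2 * X * (a * X + 3 * n))‖ ^ 2 ≤
      6 * (Fintype.card F : ℝ) * ∑ X : F, ∑ Y : F, ‖f X Y‖ ^ 2 := by
  set u : F := -e3 / σ with hu
  set t : F := e2 / (3 * σ) with ht
  have hu' : e3 = -(σ * u) := by rw [hu]; field_simp
  have ht' : e2 = 3 * σ * t := by rw [ht]; field_simp
  have h1 := spec_two ψ hψ σ hσ (fun X Y => f (X + u) (Y + t))
  have h2 : ∑ X : F, ∑ Y : F, ‖f (X + u) (Y + t)‖ ^ 2 = ∑ X : F, ∑ Y : F, ‖f X Y‖ ^ 2 := by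
    rw [← Equiv.sum_comp (Equiv.addRight u) (fun X => ∑ Y : F, ‖f X Y‖ ^ 2)]
    refine Finset.sum_congr rfl fun X _ => ?_
    rw [← Equiv.sum_comp (Equiv.addRight t)
      (fun Y => ‖f (Equiv.addRight u X) Y‖ ^ 2)]
    simp
  rw [h2] at h1
  refine le_trans (le_of_eq ?_) h1
  unfold QS
  refine Finset.sum_congr rfl fun a _ => ?_
  rw [← Equiv.sum_comp (Equiv.addRight (t - a * u))
    (fun n => ‖∑ X : F, f X (a * X + n) *
        ψ (-e2 * a ^ 2 * X - e3 * a ^ 3 * X + σ * a ^ 2 * X * (a * X + 3 * n))‖ ^ 2)]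
  refine Finset.sum_congr rfl fun n _ => ?_
  congr 1
  simp only [Equiv.coe_addRight]
  have e : ∑ X : F, f X (a * X + (n + (t - a * u))) *
        ψ (-e2 * a ^ 2 * X - e3 * a ^ 3 * X + σ * a ^ 2 * X * (a * X + 3 * (n + (t - a * u)))) =
      ψ (-e2 * a ^ 2 * u - e3 * a ^ 3 * u + σ * a ^ 2 * u * (a * u + 3 * (n + (t - a * u)))) *
      ∑ X : F, f (X + u) (a * X + n + t) * ψ (σ * a ^ 2 * X * (a * X + 3 * n)) := by
    rw [← Equiv.sum_comp (Equiv.addRight u) (fun X => f X (a * X + (n + (t - a * u))) *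
        ψ (-e2 * a ^ 2 * X - e3 * a ^ 3 * X + σ * a ^ 2 * X * (a * X + 3 * (n + (t - a * u))))),
      Finset.mul_sum]
    refine Finset.sum_congr rfl fun X _ => ?_
    simp only [Equiv.coe_addRight]
    have e1 : a * (X + u) + (n + (t - a * u)) = a * X + n + t := by ring
    rw [e1]
    have e2 : ∀ (c : ℂ) (A B : F), ψ A * (c * ψ B) = c * ψ (A + B) := by
      intro c A B
      rw [AddChar.map_add_eq_mul]; ring
    rw [e2]
    congr 2
    rw [hu', ht']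
    ring
  rw [e, norm_mul, psi_norm, one_mul]

/-- the Fourier transform in the last three variables -/
noncomputable def F3 (G : F → F → F → ℂ) (x y z : F) : ℂ :=
  ∑ a : F, ∑ b : F, ∑ c : F, G a b c * ψ (x * a + y * b + z * c)

include hψ in
lemma parseval3 (G : F → F → F → ℂ) :
    ∑ x : F, ∑ y : F, ∑ z : F, ‖F3 ψ G x y z‖ ^ 2 =
      (Fintype.card F : ℝ) ^ 3 * ∑ a : F, ∑ b : F, ∑ c : F, ‖G a b c‖ ^ 2 := by
  have h1 : ∀ y z : F, ∑ x : F, ‖F3 ψ G x y z‖ ^ 2 =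
      (Fintype.card F : ℝ) * ∑ a : F, ‖F2 ψ (G a) y z‖ ^ 2 := by
    intro y z
    rw [← parseval ψ hψ]
    refine Finset.sum_congr rfl fun x _ => ?_
    congr 2
    unfold F3 F2
    refine Finset.sum_congr rfl fun a _ => ?_
    rw [Finset.sum_mul]
    refine Finset.sum_congr rfl fun b _ => ?_
    rw [Finset.sum_mul]
    refine Finset.sum_congr rfl fun c _ => ?_
    rw [add_assoc, AddChar.map_add_eq_mul ψ (x * a)]; ring
  calc ∑ x : F, ∑ y : F, ∑ z : F, ‖F3 ψ G x y z‖ ^ 2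
      = ∑ y : F, ∑ z : F, ∑ x : F, ‖F3 ψ G x y z‖ ^ 2 := by
        rw [Finset.sum_comm]
        refine Finset.sum_congr rfl fun y _ => ?_
        rw [Finset.sum_comm]
    _ = ∑ a : F, (Fintype.card F : ℝ) * ∑ z : F, ∑ y : F, ‖F2 ψ (G a) y z‖ ^ 2 := by
        simp only [h1, ← Finset.mul_sum]
        congr 1
        calc ∑ y : F, ∑ z : F, ∑ a : F, ‖F2 ψ (G a) y z‖ ^ 2
            = ∑ y : F, ∑ a : F, ∑ z : F, ‖F2 ψ (G a) y z‖ ^ 2 := by
              refine Finset.sum_congr rfl fun y _ => ?_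
              rw [Finset.sum_comm]
          _ = ∑ a : F, ∑ y : F, ∑ z : F, ‖F2 ψ (G a) y z‖ ^ 2 := by rw [Finset.sum_comm]
          _ = ∑ a : F, ∑ z : F, ∑ y : F, ‖F2 ψ (G a) y z‖ ^ 2 := by
              refine Finset.sum_congr rfl fun a _ => ?_
              rw [Finset.sum_comm]
    _ = _ := by
        simp only [parseval2 ψ hψ]
        rw [Finset.mul_sum]
        refine Finset.sum_congr rfl fun a _ => ?_
        ring

include hψ in
/-- the bound for the sums over the lines, complex version -/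
theorem line_sums_complex (h3 : (3 : F) ≠ 0) (φ : F → F → F → F → F → ℂ)
    (h0 : ∑ x0 : F, ∑ x1 : F, ∑ x2 : F, ∑ x3 : F, ∑ x4 : F, φ x0 x1 x2 x3 x4 = 0) :
    ∑ a : F, ∑ n1 : F, ∑ n2 : F, ∑ n3 : F, ∑ n4 : F,
      ‖∑ X : F, φ X (a * X + n1) (a ^ 2 * X + n2) (a ^ 3 * X + n3)
        (n4 - a ^ 2 * X * (a * X + 3 * n1))‖ ^ 2 ≤
      6 * (Fintype.card F : ℝ) *
        ∑ x0 : F, ∑ x1 : F, ∑ x2 : F, ∑ x3 : F, ∑ x4 : F, ‖φ x0 x1 x2 x3 x4‖ ^ 2 := by
  have hq : (0 : ℝ) < Fintype.card F := by exact_mod_cast Fintype.card_pos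
  -- the transformed function
  set f : F → F → F → F → F → ℂ := fun x y z X Y => F3 ψ (φ X Y) x y z with hf
  have h1 : ∀ a n1 : F, (Fintype.card F : ℝ) ^ 3 * ∑ n2 : F, ∑ n3 : F, ∑ n4 : F,
      ‖∑ X : F, φ X (a * X + n1) (a ^ 2 * X + n2) (a ^ 3 * X + n3)
        (n4 - a ^ 2 * X * (a * X + 3 * n1))‖ ^ 2 =
      ∑ x : F, ∑ y : F, ∑ z : F, ‖∑ X : F, f x y z X (a * X + n1) *
        ψ (-x * a ^ 2 * X - y * a ^ 3 * X + z * a ^ 2 * X * (a * X + 3 * n1))‖ ^ 2 := by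
    intro a n1
    rw [← parseval3 ψ hψ (fun n2 n3 n4 => ∑ X : F, φ X (a * X + n1) (a ^ 2 * X + n2)
      (a ^ 3 * X + n3) (n4 - a ^ 2 * X * (a * X + 3 * n1)))]
    refine Finset.sum_congr rfl fun x _ => ?_
    refine Finset.sum_congr rfl fun y _ => ?_
    refine Finset.sum_congr rfl fun z _ => ?_
    congr 2
    simp only [hf, F3]
    calc ∑ n2 : F, ∑ n3 : F, ∑ n4 : F, (∑ X : F, φ X (a * X + n1) (a ^ 2 * X + n2)
          (a ^ 3 * X + n3) (n4 - a ^ 2 * X * (a * X + 3 * n1))) * ψ (x * n2 + y * n3 + z * n4)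
        = ∑ X : F, ∑ n2 : F, ∑ n3 : F, ∑ n4 : F, φ X (a * X + n1) (a ^ 2 * X + n2)
          (a ^ 3 * X + n3) (n4 - a ^ 2 * X * (a * X + 3 * n1)) * ψ (x * n2 + y * n3 + z * n4) := by
          rw [Finset.sum_comm (s := univ) (t := univ) (f := fun X n2 => ∑ n3 : F, ∑ n4 : F,
            φ X (a * X + n1) (a ^ 2 * X + n2)
            (a ^ 3 * X + n3) (n4 - a ^ 2 * X * (a * X + 3 * n1)) * ψ (x * n2 + y * n3 + z * n4))]
          refine Finset.sum_congr rfl fun n2 _ => ?_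
          rw [Finset.sum_comm (s := univ) (t := univ) (f := fun X n3 => ∑ n4 : F,
            φ X (a * X + n1) (a ^ 2 * X + n2)
            (a ^ 3 * X + n3) (n4 - a ^ 2 * X * (a * X + 3 * n1)) * ψ (x * n2 + y * n3 + z * n4))]
          refine Finset.sum_congr rfl fun n3 _ => ?_
          rw [Finset.sum_comm (s := univ) (t := univ) (f := fun X n4 =>
            φ X (a * X + n1) (a ^ 2 * X + n2)
            (a ^ 3 * X + n3) (n4 - a ^ 2 * X * (a * X + 3 * n1)) * ψ (x * n2 + y * n3 + z * n4))]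
          refine Finset.sum_congr rfl fun n4 _ => ?_
          rw [Finset.sum_mul]
      _ = _ := by
          refine Finset.sum_congr rfl fun X _ => ?_
          rw [Finset.sum_mul]
          rw [← Equiv.sum_comp (Equiv.addLeft (a ^ 2 * X)) (fun a_1 => (∑ b : F, ∑ c : F,
            φ X (a * X + n1) a_1 b c * ψ (x * a_1 + y * b + z * c)) *
            ψ (-x * a ^ 2 * X - y * a ^ 3 * X + z * a ^ 2 * X * (a * X + 3 * n1)))]
          refine Finset.sum_congr rfl fun n2 _ => ?_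
          rw [Finset.sum_mul]
          rw [← Equiv.sum_comp (Equiv.addLeft (a ^ 3 * X)) (fun b => (∑ c : F,
            φ X (a * X + n1) (Equiv.addLeft (a ^ 2 * X) n2) b c *
              ψ (x * (Equiv.addLeft (a ^ 2 * X) n2) + y * b + z * c)) *
            ψ (-x * a ^ 2 * X - y * a ^ 3 * X + z * a ^ 2 * X * (a * X + 3 * n1)))]
          refine Finset.sum_congr rfl fun n3 _ => ?_
          rw [Finset.sum_mul]
          rw [← Equiv.sum_comp (Equiv.subRight (a ^ 2 * X * (a * X + 3 * n1))) (fun c =>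
            φ X (a * X + n1) (Equiv.addLeft (a ^ 2 * X) n2) (Equiv.addLeft (a ^ 3 * X) n3) c *
              ψ (x * (Equiv.addLeft (a ^ 2 * X) n2) + y * (Equiv.addLeft (a ^ 3 * X) n3) + z * c) *
            ψ (-x * a ^ 2 * X - y * a ^ 3 * X + z * a ^ 2 * X * (a * X + 3 * n1)))]
          refine Finset.sum_congr rfl fun n4 _ => ?_
          simp only [Equiv.coe_addLeft, Equiv.subRight_apply]
          have e2 : ∀ (c : ℂ) (A B : F), c * ψ A * ψ B = c * ψ (A + B) := by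
            intro c A B
            rw [AddChar.map_add_eq_mul]; ring
          rw [e2]
          congr 2
          ring
  -- the bound for each frequency
  have h2 : ∀ x y z : F, ∑ a : F, ∑ n1 : F, ‖∑ X : F, f x y z X (a * X + n1) *
        ψ (-x * a ^ 2 * X - y * a ^ 3 * X + z * a ^ 2 * X * (a * X + 3 * n1))‖ ^ 2 ≤
      6 * (Fintype.card F : ℝ) * ∑ X : F, ∑ Y : F, ‖f x y z X Y‖ ^ 2 := by
    intro x y z
    by_cases hz : z = 0
    · have h4 := spec_zero ψ hψ (f x y z) x y (by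
        by_cases hxy : x ≠ 0 ∨ y ≠ 0
        · exact Or.inl hxy
        · push Not at hxy
          refine Or.inr ?_
          rw [hxy.1, hxy.2, hz]
          simp only [hf, F3]
          simpa using h0)
      have h5 : 0 ≤ ∑ X : F, ∑ Y : F, ‖f x y z X Y‖ ^ 2 :=
        Finset.sum_nonneg fun _ _ => Finset.sum_nonneg fun _ _ => by positivity
      refine le_trans (le_of_eq ?_) (h4.trans ?_)
      · refine Finset.sum_congr rfl fun a _ => ?_
        refine Finset.sum_congr rfl fun n _ => ?_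
        congr 2
        refine Finset.sum_congr rfl fun X _ => ?_
        rw [hz]
        congr 2
        ring
      · nlinarith [mul_nonneg hq.le h5]
    · exact spec_three ψ hψ h3 z x y hz (f x y z)
  have h4 : (Fintype.card F : ℝ) ^ 3 * ∑ a : F, ∑ n1 : F, ∑ n2 : F, ∑ n3 : F, ∑ n4 : F,
      ‖∑ X : F, φ X (a * X + n1) (a ^ 2 * X + n2) (a ^ 3 * X + n3)
        (n4 - a ^ 2 * X * (a * X + 3 * n1))‖ ^ 2 =
      ∑ x : F, ∑ y : F, ∑ z : F, ∑ a : F, ∑ n1 : F, ‖∑ X : F, f x y z X (a * X + n1) *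
        ψ (-x * a ^ 2 * X - y * a ^ 3 * X + z * a ^ 2 * X * (a * X + 3 * n1))‖ ^ 2 := by
    simp only [Finset.mul_sum] at h1 ⊢
    calc _ = ∑ a : F, ∑ n1 : F, ∑ x : F, ∑ y : F, ∑ z : F, ‖∑ X : F, f x y z X (a * X + n1) *
        ψ (-x * a ^ 2 * X - y * a ^ 3 * X + z * a ^ 2 * X * (a * X + 3 * n1))‖ ^ 2 := by
          refine Finset.sum_congr rfl fun a _ => ?_
          refine Finset.sum_congr rfl fun n1 _ => ?_
          exact h1 a n1
      _ = _ := by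
          simp only [← Finset.sum_product']
          refine Finset.sum_nbij' (fun t => (t.2.2.1, t.2.2.2.1, t.2.2.2.2, t.1, t.2.1))
            (fun t => (t.2.2.2.1, t.2.2.2.2, t.1, t.2.1, t.2.2.1)) ?_ ?_ ?_ ?_ ?_ <;> simp
  have h5 : ∑ x : F, ∑ y : F, ∑ z : F, ∑ X : F, ∑ Y : F, ‖f x y z X Y‖ ^ 2 =
      (Fintype.card F : ℝ) ^ 3 *
        ∑ x0 : F, ∑ x1 : F, ∑ x2 : F, ∑ x3 : F, ∑ x4 : F, ‖φ x0 x1 x2 x3 x4‖ ^ 2 := by
    calc _ = ∑ X : F, ∑ Y : F, ∑ x : F, ∑ y : F, ∑ z : F, ‖F3 ψ (φ X Y) x y z‖ ^ 2 := by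
          simp only [← Finset.sum_product']
          refine Finset.sum_nbij' (fun t => (t.2.2.2.1, t.2.2.2.2, t.1, t.2.1, t.2.2.1))
            (fun t => (t.2.2.1, t.2.2.2.1, t.2.2.2.2, t.1, t.2.1)) ?_ ?_ ?_ ?_ ?_ <;> simp [hf]
      _ = _ := by
          simp only [parseval3 ψ hψ, ← Finset.mul_sum]
  have h6 : (Fintype.card F : ℝ) ^ 3 * ∑ a : F, ∑ n1 : F, ∑ n2 : F, ∑ n3 : F, ∑ n4 : F,
      ‖∑ X : F, φ X (a * X + n1) (a ^ 2 * X + n2) (a ^ 3 * X + n3)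
        (n4 - a ^ 2 * X * (a * X + 3 * n1))‖ ^ 2 ≤
      (Fintype.card F : ℝ) ^ 3 * (6 * (Fintype.card F : ℝ) *
        ∑ x0 : F, ∑ x1 : F, ∑ x2 : F, ∑ x3 : F, ∑ x4 : F, ‖φ x0 x1 x2 x3 x4‖ ^ 2) := by
    rw [h4]
    calc _ ≤ ∑ x : F, ∑ y : F, ∑ z : F, 6 * (Fintype.card F : ℝ) *
          ∑ X : F, ∑ Y : F, ‖f x y z X Y‖ ^ 2 := by
          refine Finset.sum_le_sum fun x _ => ?_
          refine Finset.sum_le_sum fun y _ => ?_
          refine Finset.sum_le_sum fun z _ => ?_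
          exact h2 x y z
      _ = 6 * (Fintype.card F : ℝ) *
          ∑ x : F, ∑ y : F, ∑ z : F, ∑ X : F, ∑ Y : F, ‖f x y z X Y‖ ^ 2 := by
          simp only [← Finset.mul_sum]
      _ = _ := by rw [h5]; ring
  exact le_of_mul_le_mul_left h6 (by positivity)

end

end Pool.Agent.Hex4
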