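import Pool.Agent.Hex4.Clique
import Pool.Agent.Hex4.Spectral
import Pool.Agent.PRK.Core

/-!
# The graph

Vertices: `F ^ 5`. `step a δ` moves a vertex in direction `a`.  Two vertices are adjacent if the
second one is reached from the first one by two nonzero steps in directions with different labels.
-/

set_option autoImplicit false

open Finset

namespace Pool.Agent.Hex4

variable {F : Type} [Field F]

/-- one step in direction `a` -/
def step (a δ : F) (x : F × F × F × F × F) : F × F × F × F × F :=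
  (x.1 + δ, x.2.1 + δ * a, x.2.2.1 + δ * a ^ 2, x.2.2.2.1 + δ * a ^ 3,
    x.2.2.2.2 + δ * a ^ 2 * (a * x.1 - 3 * x.2.1 - δ * a))

lemma step_add (a δ δ' : F) (x : F × F × F × F × F) :
    step a δ' (step a δ x) = step a (δ + δ') x := by
  simp only [step, Prod.mk.injEq]
  refine ⟨?_, ?_, ?_, ?_, ?_⟩ <;> ring

lemma step_zero (a : F) (x : F × F × F × F × F) : step a 0 x = x := by
  simp [step]

/-- steps are bijections -/
def stepEquiv (a δ : F) : (F × F × F × F × F) ≃ (F × F × F × F × F) where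
  toFun := step a δ
  invFun := step a (-δ)
  left_inv x := by rw [step_add, add_neg_cancel, step_zero]
  right_inv x := by rw [step_add, neg_add_cancel, step_zero]

/-- the map to the Heisenberg group -/
def Phi (x : F × F × F × F × F) : H F :=
  ⟨x.1, x.2.1, x.2.2.1, x.2.2.2.1,
    2 * x.2.2.2.2 + 3 * x.2.1 * x.2.2.1 - x.1 * x.2.2.2.1⟩

/-- pure elements with a multiplier -/
def w (a δ : F) : H F := ⟨δ, δ * a, δ * a ^ 2, δ * a ^ 3, 0⟩

lemma Phi_step (a δ : F) (x : F × F × F × F × F) : Phi (step a δ x) = Phi x * w a δ := by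
  ext <;> simp [Phi, step, w]
  ring

lemma w_eq_v {a δ ρ : F} (h : ρ ^ 3 = δ) : w a δ = v (ρ, ρ * a) := by
  subst h
  ext <;> simp [w] <;> ring

lemma w_inj (h2 : (2 : F) ≠ 0) {a b δ ε a' b' δ' ε' : F} (hab : a ≠ b) (hδ : δ ≠ 0) (hε : ε ≠ 0)
    (h : w a δ * w b ε = w a' δ' * w b' ε') : a = a' ∧ b = b' ∧ δ = δ' ∧ ε = ε' := by
  have e0 := congrArg H.c0 h
  have e1 := congrArg H.c1 h
  have e2 := congrArg H.c2 h
  have e3 := congrArg H.c3 h
  have es := congrArg H.s h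
  simp only [H.mul_c0, H.mul_c1, H.mul_c2, H.mul_c3, H.mul_s, w] at e0 e1 e2 e3 es
  have hba : b - a ≠ 0 := sub_ne_zero.mpr (Ne.symm hab)
  have hA : δ * ε * (b - a) ^ 2 = δ' * ε' * (b' - a') ^ 2 := by
    have : (δ + ε) * (δ * a ^ 2 + ε * b ^ 2) - (δ * a + ε * b) ^ 2 =
        (δ' + ε') * (δ' * a' ^ 2 + ε' * b' ^ 2) - (δ' * a' + ε' * b') ^ 2 := by
      rw [e0, e1, e2]
    linear_combination this
  have hB : δ * ε * (b - a) ^ 3 = δ' * ε' * (b' - a') ^ 3 := by
    linear_combination es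
  have hne : δ * ε * (b - a) ^ 2 ≠ 0 :=
    mul_ne_zero (mul_ne_zero hδ hε) (pow_ne_zero _ hba)
  have hd : b - a = b' - a' := by
    apply mul_left_cancel₀ hne
    linear_combination hB - (b' - a') * hA
  have hC : δ * ε * (b - a) ^ 2 * (a + b) = δ' * ε' * (b' - a') ^ 2 * (a' + b') := by
    have : (δ + ε) * (δ * a ^ 3 + ε * b ^ 3) - (δ * a + ε * b) * (δ * a ^ 2 + ε * b ^ 2) =
        (δ' + ε') * (δ' * a' ^ 3 + ε' * b' ^ 3) -
          (δ' * a' + ε' * b') * (δ' * a' ^ 2 + ε' * b' ^ 2) := by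
      rw [e0, e1, e2, e3]
    linear_combination this
  have hs : a + b = a' + b' := by
    apply mul_left_cancel₀ hne
    linear_combination hC - (a' + b') * hA
  have hb : b = b' := by
    apply mul_left_cancel₀ h2
    linear_combination hs + hd
  subst hb
  have ha : a = a' := by linear_combination hs
  subst ha
  have he : ε = ε' := by
    apply mul_right_cancel₀ hba
    linear_combination e1 - a * e0
  subst he
  exact ⟨rfl, rfl, by linear_combination e0, rfl⟩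

variable [Fintype F] [DecidableEq F]

/-- the index set of the neighbours -/
def I (K : Finset F) : Finset (F × F × F × F) :=
  (K ×ˢ Kᶜ ×ˢ univ.erase 0 ×ˢ univ.erase 0) ∪ (Kᶜ ×ˢ K ×ˢ univ.erase 0 ×ˢ univ.erase 0)

/-- the neighbour with a given index -/
def nb (x : F × F × F × F × F) (t : F × F × F × F) : F × F × F × F × F :=
  step t.2.1 t.2.2.2 (step t.1 t.2.2.1 x)

lemma mem_I {K : Finset F} {t : F × F × F × F} :
    t ∈ I K ↔ (t.1 ∈ K ↔ t.2.1 ∉ K) ∧ t.2.2.1 ≠ 0 ∧ t.2.2.2 ≠ 0 := by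
  obtain ⟨a, b, δ, ε⟩ := t
  simp only [I, mem_union, mem_product, mem_compl, mem_erase, mem_univ, and_true]
  tauto

lemma I_ne {K : Finset F} {t : F × F × F × F} (h : t ∈ I K) : t.1 ≠ t.2.1 := by
  rw [mem_I] at h
  intro h1
  rw [h1] at h
  tauto

lemma nb_inj (h2 : (2 : F) ≠ 0) {K : Finset F} (x : F × F × F × F × F)
    {t t' : F × F × F × F} (ht : t ∈ I K) (h : nb x t = nb x t') : t = t' := by
  have h1 := congrArg Phi h
  simp only [nb, Phi_step, mul_assoc, mul_right_inj] at h1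
  obtain ⟨e1, e2, e3, e4⟩ := w_inj h2 (I_ne ht) (mem_I.mp ht).2.1 (mem_I.mp ht).2.2 h1
  ext <;> assumption

/-- the graph -/
def G (K : Finset F) : SimpleGraph (F × F × F × F × F) where
  Adj x y := ∃ t ∈ I K, nb x t = y
  symm := ⟨by
    rintro x y ⟨t, ht, rfl⟩
    refine ⟨(t.2.1, t.1, -t.2.2.2, -t.2.2.1), ?_, ?_⟩
    · rw [mem_I] at ht ⊢
      simp only [ne_eq, neg_eq_zero]
      tauto
    · simp only [nb]
      rw [step_add, add_neg_cancel, step_zero, step_add, add_neg_cancel, step_zero]⟩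
  loopless := ⟨by
    rintro x ⟨t, ht, h⟩
    have h1 := congrArg Phi h
    simp only [nb, Phi_step, mul_assoc, mul_eq_left] at h1
    have e0 := congrArg H.c0 h1
    have e1 := congrArg H.c1 h1
    simp only [H.mul_c0, H.mul_c1, w, H.one_c0, H.one_c1] at e0 e1
    have h3 : t.2.2.2 * (t.2.1 - t.1) = 0 := by linear_combination e1 - t.1 * e0
    rcases mul_eq_zero.mp h3 with h4 | h4
    · exact (mem_I.mp ht).2.2 h4
    · exact I_ne ht (sub_eq_zero.mp h4).symm⟩

omit [DecidableEq F] [Fintype F] in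
lemma cube_surj [Finite F] (hc : ∀ x y : F, x ^ 3 = y ^ 3 → x = y) (δ : F) :
    ∃ ρ : F, ρ ^ 3 = δ :=
  Finite.surjective_of_injective (f := fun x : F => x ^ 3) (fun x y h => hc x y h) δ

lemma S_of_adj (hc : ∀ x y : F, x ^ 3 = y ^ 3 → x = y) {K : Finset F}
    {x y : F × F × F × F × F} (h : (G K).Adj x y) : S (K : Set F) ((Phi x)⁻¹ * Phi y) := by
  obtain ⟨t, ht, rfl⟩ := h
  rw [mem_I] at ht
  obtain ⟨ρ, hρ⟩ := cube_surj hc t.2.2.1
  obtain ⟨ρ', hρ'⟩ := cube_surj hc t.2.2.2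
  have hρ0 : ρ ≠ 0 := by
    rintro rfl
    apply ht.2.1
    rw [← hρ]; ring
  have hρ0' : ρ' ≠ 0 := by
    rintro rfl
    apply ht.2.2
    rw [← hρ']; ring
  refine ⟨(ρ, ρ * t.1), (ρ', ρ' * t.2.1), hρ0, hρ0', ?_, ?_⟩
  · simp only [mul_div_cancel_left₀ _ hρ0, mul_div_cancel_left₀ _ hρ0', Finset.mem_coe]
    exact ht.1
  · simp only [nb, Phi_step]
    rw [w_eq_v hρ, w_eq_v hρ']
    group

/-- **no `K_4`** -/
theorem cliqueFree (h2 : (2 : F) ≠ 0) (h3 : (3 : F) ≠ 0) (hc : ∀ x y : F, x ^ 3 = y ^ 3 → x = y)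
    (K : Finset F) : (G K).CliqueFree 4 := by
  rw [SimpleGraph.cliqueFree_iff]
  constructor
  intro f
  have hadj : ∀ i j : Fin 4, i ≠ j → S (K : Set F) ((Phi (f i))⁻¹ * Phi (f j)) := by
    intro i j hij
    apply S_of_adj hc
    exact f.toHom.map_rel (by simpa using hij)
  refine no_four h2 h3 hc (hadj 0 1 (by decide)) (hadj 0 2 (by decide)) (hadj 0 3 (by decide))
    ?_ ?_ ?_
  · have := hadj 1 2 (by decide)
    convert this using 1
    group
  · have := hadj 1 3 (by decide)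
    convert this using 1
    group
  · have := hadj 2 3 (by decide)
    convert this using 1
    group

lemma card_I (K : Finset F) :
    (I K).card = 2 * (K.card * (Fintype.card F - K.card) * (Fintype.card F - 1) ^ 2) := by
  have hdis : Disjoint (K ×ˢ Kᶜ ×ˢ (univ.erase (0 : F)) ×ˢ (univ.erase (0 : F)))
      (Kᶜ ×ˢ K ×ˢ (univ.erase (0 : F)) ×ˢ (univ.erase (0 : F))) := by
    rw [Finset.disjoint_left]
    rintro ⟨a, b, δ, ε⟩ h1 h2
    simp only [mem_product, mem_compl] at h1 h2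
    exact h2.1 h1.1
  rw [I, Finset.card_union_of_disjoint hdis]
  simp only [card_product, card_compl, card_erase_of_mem (mem_univ _), card_univ]
  ring

lemma sum_adj (h2 : (2 : F) ≠ 0) (K : Finset F) (x : F × F × F × F × F)
    [DecidablePred fun y => (G K).Adj x y] (g : F × F × F × F × F → ℝ) :
    ∑ y, (if (G K).Adj x y then g y else 0) = ∑ t ∈ I K, g (nb x t) := by
  rw [← Finset.sum_filter]
  symm
  refine Finset.sum_bij (fun t _ => nb x t) ?_ ?_ ?_ ?_
  · intro t ht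
    rw [mem_filter]
    exact ⟨mem_univ _, t, ht, rfl⟩
  · intro t ht t' _ h
    exact nb_inj h2 x ht h
  · intro y hy
    rw [mem_filter] at hy
    obtain ⟨t, ht, h⟩ := hy.2
    exact ⟨t, ht, h⟩
  · intro t _
    rfl

lemma degree (h2 : (2 : F) ≠ 0) (K : Finset F) (x : F × F × F × F × F)
    [DecidablePred fun y => (G K).Adj x y] :
    (univ.filter (fun y => (G K).Adj x y)).card = (I K).card := by
  symm
  refine Finset.card_bij (fun t _ => nb x t) ?_ ?_ ?_
  · intro t ht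
    rw [mem_filter]
    exact ⟨mem_univ _, t, ht, rfl⟩
  · intro t ht t' _ h
    exact nb_inj h2 x ht h
  · intro y hy
    rw [mem_filter] at hy
    obtain ⟨t, ht, h⟩ := hy.2
    exact ⟨t, ht, h⟩

/-- the operator of the nonzero steps in directions of `K` -/
def Bop (K : Finset F) (φ : F × F × F × F × F → ℝ) (x : F × F × F × F × F) : ℝ :=
  ∑ a ∈ K, ∑ δ ∈ univ.erase (0 : F), φ (step a δ x)

lemma form_eq (K : Finset F) (φ : F × F × F × F × F → ℝ) :
    ∑ x, φ x * ∑ t ∈ I K, φ (nb x t) = 2 * ∑ x, Bop K φ x * Bop Kᶜ φ x := by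
  have hdis : Disjoint (K ×ˢ Kᶜ ×ˢ (univ.erase (0 : F)) ×ˢ (univ.erase (0 : F)))
      (Kᶜ ×ˢ K ×ˢ (univ.erase (0 : F)) ×ˢ (univ.erase (0 : F))) := by
    rw [Finset.disjoint_left]
    rintro ⟨a, b, δ, ε⟩ h1 h2
    simp only [mem_product, mem_compl] at h1 h2
    exact h2.1 h1.1
  have key : ∀ A B : Finset F, ∑ x, φ x *
      ∑ t ∈ A ×ˢ B ×ˢ (univ.erase (0 : F)) ×ˢ (univ.erase (0 : F)), φ (nb x t) =
      ∑ x, Bop A φ x * Bop B φ x := by
    intro A B
    simp only [Finset.sum_product, nb, Finset.mul_sum]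
    calc ∑ x, ∑ a ∈ A, ∑ b ∈ B, ∑ δ ∈ univ.erase (0 : F), ∑ ε ∈ univ.erase (0 : F),
          φ x * φ (step b ε (step a δ x))
        = ∑ a ∈ A, ∑ b ∈ B, ∑ δ ∈ univ.erase (0 : F), ∑ ε ∈ univ.erase (0 : F),
          ∑ x, φ x * φ (step b ε (step a δ x)) := by
          rw [Finset.sum_comm]
          refine Finset.sum_congr rfl fun a _ => ?_
          rw [Finset.sum_comm]
          refine Finset.sum_congr rfl fun b _ => ?_
          rw [Finset.sum_comm]
          refine Finset.sum_congr rfl fun δ _ => ?_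
          rw [Finset.sum_comm]
      _ = ∑ a ∈ A, ∑ b ∈ B, ∑ δ ∈ univ.erase (0 : F), ∑ ε ∈ univ.erase (0 : F),
          ∑ x, φ (step a (-δ) x) * φ (step b ε x) := by
          refine Finset.sum_congr rfl fun a _ => ?_
          refine Finset.sum_congr rfl fun b _ => ?_
          refine Finset.sum_congr rfl fun δ _ => ?_
          refine Finset.sum_congr rfl fun ε _ => ?_
          rw [← Equiv.sum_comp (stepEquiv a δ) (fun x => φ (step a (-δ) x) * φ (step b ε x))]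
          refine Finset.sum_congr rfl fun x _ => ?_
          simp only [stepEquiv, Equiv.coe_fn_mk]
          rw [step_add, add_neg_cancel, step_zero]
      _ = ∑ a ∈ A, ∑ b ∈ B, ∑ δ ∈ univ.erase (0 : F), ∑ ε ∈ univ.erase (0 : F),
          ∑ x, φ (step a δ x) * φ (step b ε x) := by
          refine Finset.sum_congr rfl fun a _ => ?_
          refine Finset.sum_congr rfl fun b _ => ?_
          refine Finset.sum_bij (fun δ _ => -δ) ?_ ?_ ?_ ?_
          · intro δ hδ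
            simpa using hδ
          · intro δ _ δ' _ h
            exact neg_injective h
          · intro δ hδ
            exact ⟨-δ, by simpa using hδ, by simp⟩
          · intro δ _
            rfl
      _ = ∑ x, Bop A φ x * Bop B φ x := by
          have : ∀ x, Bop A φ x * Bop B φ x = ∑ a ∈ A, ∑ b ∈ B, ∑ δ ∈ univ.erase (0 : F),
              ∑ ε ∈ univ.erase (0 : F), φ (step a δ x) * φ (step b ε x) := by
            intro x
            simp only [Bop, Finset.sum_mul_sum]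
          simp only [this]
          symm
          rw [Finset.sum_comm]
          refine Finset.sum_congr rfl fun a _ => ?_
          rw [Finset.sum_comm]
          refine Finset.sum_congr rfl fun b _ => ?_
          rw [Finset.sum_comm]
          refine Finset.sum_congr rfl fun δ _ => ?_
          rw [Finset.sum_comm]
  have h1 : ∀ x, φ x * ∑ t ∈ I K, φ (nb x t) =
      φ x * ∑ t ∈ K ×ˢ Kᶜ ×ˢ (univ.erase (0 : F)) ×ˢ (univ.erase (0 : F)), φ (nb x t) +
      φ x * ∑ t ∈ Kᶜ ×ˢ K ×ˢ (univ.erase (0 : F)) ×ˢ (univ.erase (0 : F)), φ (nb x t) := by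
    intro x
    rw [I, Finset.sum_union hdis, mul_add]
  simp only [h1, Finset.sum_add_distrib, key]
  rw [two_mul]
  congr 1
  refine Finset.sum_congr rfl fun x _ => ?_
  ring

/-- the points of a line -/
def pt (a : F) (n : F × F × F × F) (X : F) : F × F × F × F × F :=
  (X, a * X + n.1, a ^ 2 * X + n.2.1, a ^ 3 * X + n.2.2.1,
    n.2.2.2 - a ^ 2 * X * (a * X + 3 * n.1))

omit [Fintype F] [DecidableEq F] in
lemma step_pt (a δ : F) (n : F × F × F × F) (X : F) : step a δ (pt a n X) = pt a n (X + δ) := by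
  simp only [step, pt, Prod.mk.injEq]
  refine ⟨?_, ?_, ?_, ?_, ?_⟩
  · trivial
  all_goals ring

/-- a vertex and the line of slope `a` through it -/
def ptEquiv (a : F) : (F × F × F × F) × F ≃ F × F × F × F × F where
  toFun t := pt a t.1 t.2
  invFun x := ((x.2.1 - a * x.1, x.2.2.1 - a ^ 2 * x.1, x.2.2.2.1 - a ^ 3 * x.1,
    x.2.2.2.2 + a ^ 2 * x.1 * (a * x.1 + 3 * (x.2.1 - a * x.1))), x.1)
  left_inv t := by
    obtain ⟨⟨n1, n2, n3, n4⟩, X⟩ := t
    simp only [pt, Prod.mk.injEq]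
    refine ⟨⟨?_, ?_, ?_, ?_⟩, trivial⟩ <;> ring
  right_inv x := by
    simp only [pt]
    ext <;> simp only <;> ring

/-- the sum over a line -/
def ls (φ : F × F × F × F × F → ℝ) (a : F) (n : F × F × F × F) : ℝ := ∑ X, φ (pt a n X)

omit [DecidableEq F] in
lemma sum_step (φ θ : F × F × F × F × F → ℝ) (a : F) :
    ∑ x, θ x * ∑ δ, φ (step a δ x) = ∑ n, ls θ a n * ls φ a n := by
  rw [← Equiv.sum_comp (ptEquiv a), Fintype.sum_prod_type]
  refine Finset.sum_congr rfl fun n _ => ?_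
  simp only [ptEquiv, Equiv.coe_fn_mk, ls]
  rw [Finset.sum_mul]
  refine Finset.sum_congr rfl fun X _ => ?_
  congr 1
  rw [← Equiv.sum_comp (Equiv.addLeft X) (fun Y => φ (pt a n Y))]
  refine Finset.sum_congr rfl fun δ _ => ?_
  rw [step_pt]
  rfl

/-- the bound for the sums over the lines -/
lemma line_sums (ψ : AddChar F ℂ) (hψ : ψ.IsPrimitive) (h3 : (3 : F) ≠ 0)
    (φ : F × F × F × F × F → ℝ) (h0 : ∑ x, φ x = 0) :
    ∑ a, ∑ n, ls φ a n ^ 2 ≤ 6 * (Fintype.card F : ℝ) * ∑ x, φ x ^ 2 := by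
  have h := line_sums_complex ψ hψ h3 (fun x0 x1 x2 x3 x4 => (φ (x0, x1, x2, x3, x4) : ℂ))
    (by
      have h1 : ((∑ x, φ x : ℝ) : ℂ) = 0 := by rw [h0]; simp
      rw [← h1]
      push_cast
      simp only [Fintype.sum_prod_type])
  have e1 : ∀ r : ℝ, ‖(r : ℂ)‖ ^ 2 = r ^ 2 := by
    intro r
    rw [Complex.norm_real, Real.norm_eq_abs, sq_abs]
  simp only [e1, ← Complex.ofReal_sum] at h
  have e2 : ∑ x : F × F × F × F × F, φ x ^ 2 = ∑ x0 : F, ∑ x1 : F, ∑ x2 : F, ∑ x3 : F, ∑ x4 : F,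
      φ (x0, x1, x2, x3, x4) ^ 2 := by
    simp only [Fintype.sum_prod_type]
  rw [e2]
  refine le_trans (le_of_eq ?_) h
  refine Finset.sum_congr rfl fun a _ => ?_
  simp only [Fintype.sum_prod_type, ls, pt]

lemma Bop_eq (K : Finset F) (φ : F × F × F × F × F → ℝ) (x : F × F × F × F × F) :
    Bop K φ x = (∑ a ∈ K, ∑ δ, φ (step a δ x)) - (K.card : ℝ) * φ x := by
  unfold Bop
  have : ∀ a ∈ K, ∑ δ ∈ univ.erase (0 : F), φ (step a δ x) = ∑ δ, φ (step a δ x) - φ x := by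
    intro a _
    rw [← Finset.add_sum_erase univ (fun δ => φ (step a δ x)) (Finset.mem_univ (0 : F))]
    simp only [step_zero]
    ring
  rw [Finset.sum_congr rfl this, Finset.sum_sub_distrib, Finset.sum_const, nsmul_eq_mul]

lemma Bop_sum (K : Finset F) (φ : F × F × F × F × F → ℝ) (h0 : ∑ x, φ x = 0) :
    ∑ x, Bop K φ x = 0 := by
  unfold Bop
  rw [Finset.sum_comm]
  refine Finset.sum_eq_zero fun a _ => ?_
  rw [Finset.sum_comm]
  refine Finset.sum_eq_zero fun δ _ => ?_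
  rw [← h0]
  exact Equiv.sum_comp (stepEquiv a δ) φ

lemma Bop_bound (ψ : AddChar F ℂ) (hψ : ψ.IsPrimitive) (h3 : (3 : F) ≠ 0) (K : Finset F)
    (φ : F × F × F × F × F → ℝ) (h0 : ∑ x, φ x = 0) :
    ∑ x, Bop K φ x ^ 2 ≤ 74 * (Fintype.card F : ℝ) ^ 2 * ∑ x, φ x ^ 2 := by
  have hq : (0 : ℝ) < Fintype.card F := by exact_mod_cast Fintype.card_pos
  set q : ℝ := (Fintype.card F : ℝ) with hqdef
  set T : ℝ := ∑ x, Bop K φ x ^ 2 with hT
  set Φ : ℝ := ∑ x, φ x ^ 2 with hΦ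
  have hT0 : 0 ≤ T := Finset.sum_nonneg fun _ _ => sq_nonneg _
  have hΦ0 : 0 ≤ Φ := Finset.sum_nonneg fun _ _ => sq_nonneg _
  have hK : (K.card : ℝ) ≤ q := by
    rw [hqdef]; exact_mod_cast Finset.card_le_univ K
  -- decomposition
  have e1 : T = (∑ a ∈ K, ∑ n, ls (Bop K φ) a n * ls φ a n) -
      (K.card : ℝ) * ∑ x, Bop K φ x * φ x := by
    have : T = ∑ x, Bop K φ x * Bop K φ x := by
      rw [hT]; refine Finset.sum_congr rfl fun x _ => ?_; ring
    rw [this]
    have e2 : ∀ x, Bop K φ x * Bop K φ x = (∑ a ∈ K, Bop K φ x * ∑ δ, φ (step a δ x)) -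
        (K.card : ℝ) * (Bop K φ x * φ x) := by
      intro x
      conv_lhs => rw [Bop_eq K φ x]
      rw [← Finset.mul_sum, Bop_eq K φ x]
      ring
    rw [Finset.sum_congr rfl fun x _ => e2 x, Finset.sum_sub_distrib, ← Finset.mul_sum,
      Finset.sum_comm]
    congr 1
    refine Finset.sum_congr rfl fun a _ => ?_
    exact sum_step φ (Bop K φ) a
  -- the first term
  have hA : (∑ a ∈ K, ∑ n, ls (Bop K φ) a n * ls φ a n) ^ 2 ≤ (6 * q * T) * (6 * q * Φ) := by
    have c1 : (∑ a ∈ K, ∑ n, ls (Bop K φ) a n * ls φ a n) ^ 2 ≤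
        (∑ p ∈ K ×ˢ univ, ls (Bop K φ) p.1 p.2 ^ 2) * ∑ p ∈ K ×ˢ univ, ls φ p.1 p.2 ^ 2 := by
      rw [← Finset.sum_product' K univ (fun a n => ls (Bop K φ) a n * ls φ a n)]
      exact Finset.sum_mul_sq_le_sq_mul_sq _ _ _
    have c2 : ∀ θ : F × F × F × F × F → ℝ, ∑ x, θ x = 0 →
        ∑ p ∈ K ×ˢ univ, ls θ p.1 p.2 ^ 2 ≤ 6 * q * ∑ x, θ x ^ 2 := by
      intro θ hθ
      refine le_trans ?_ (line_sums ψ hψ h3 θ hθ)
      rw [← Finset.sum_product' univ univ (fun a n => ls θ a n ^ 2)]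
      apply Finset.sum_le_sum_of_subset_of_nonneg
      · exact Finset.product_subset_product (Finset.subset_univ K) (Finset.subset_univ _)
      · intro _ _ _
        exact sq_nonneg _
    refine c1.trans ?_
    exact mul_le_mul (c2 _ (Bop_sum K φ h0)) (c2 _ h0)
      (Finset.sum_nonneg fun _ _ => sq_nonneg _) (by positivity)
  have hB : ((K.card : ℝ) * ∑ x, Bop K φ x * φ x) ^ 2 ≤ q ^ 2 * (T * Φ) := by
    rw [mul_pow]
    have c1 : (∑ x, Bop K φ x * φ x) ^ 2 ≤ T * Φ := Finset.sum_mul_sq_le_sq_mul_sq _ _ _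
    have c2 : (K.card : ℝ) ^ 2 ≤ q ^ 2 := pow_le_pow_left₀ (Nat.cast_nonneg _) hK 2
    exact mul_le_mul c2 c1 (sq_nonneg _) (by positivity)
  have h4 : T ^ 2 ≤ 74 * q ^ 2 * Φ * T := by
    set A := ∑ a ∈ K, ∑ n, ls (Bop K φ) a n * ls φ a n
    set B := (K.card : ℝ) * ∑ x, Bop K φ x * φ x
    have : T ^ 2 ≤ 2 * A ^ 2 + 2 * B ^ 2 := by
      rw [e1]
      nlinarith [sq_nonneg (A + B)]
    nlinarith
  by_contra hcon
  push Not at hcon
  have hTpos : 0 < T := lt_of_le_of_lt (by positivity) hcon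
  nlinarith

/-- **the spectral bound** -/
theorem form_bound (h2 : (2 : F) ≠ 0) (ψ : AddChar F ℂ) (hψ : ψ.IsPrimitive) (h3 : (3 : F) ≠ 0)
    (K : Finset F) [∀ x, DecidablePred fun y => (G K).Adj x y]
    (φ : F × F × F × F × F → ℝ) (h0 : ∑ x, φ x = 0) :
    |∑ x, ∑ y, (if (G K).Adj x y then φ x * φ y else 0)| ≤
      148 * (Fintype.card F : ℝ) ^ 2 * ∑ x, φ x ^ 2 := by
  have e1 : ∑ x, ∑ y, (if (G K).Adj x y then φ x * φ y else 0) =
      2 * ∑ x, Bop K φ x * Bop Kᶜ φ x := by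
    rw [← form_eq]
    refine Finset.sum_congr rfl fun x _ => ?_
    rw [← sum_adj h2 K x φ, Finset.mul_sum]
    refine Finset.sum_congr rfl fun y _ => ?_
    split_ifs <;> simp
  rw [e1]
  have h1 := Bop_bound ψ hψ h3 K φ h0
  have h1' := Bop_bound ψ hψ h3 Kᶜ φ h0
  have h4 : (∑ x, Bop K φ x * Bop Kᶜ φ x) ^ 2 ≤ (∑ x, Bop K φ x ^ 2) * ∑ x, Bop Kᶜ φ x ^ 2 :=
    Finset.sum_mul_sq_le_sq_mul_sq _ _ _
  have hΦ0 : 0 ≤ ∑ x, φ x ^ 2 := Finset.sum_nonneg fun _ _ => sq_nonneg _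
  apply abs_le_of_sq_le_sq
  · calc (2 * ∑ x, Bop K φ x * Bop Kᶜ φ x) ^ 2
        = 4 * (∑ x, Bop K φ x * Bop Kᶜ φ x) ^ 2 := by ring
      _ ≤ 4 * ((74 * (Fintype.card F : ℝ) ^ 2 * ∑ x, φ x ^ 2) *
          (74 * (Fintype.card F : ℝ) ^ 2 * ∑ x, φ x ^ 2)) := by
          apply mul_le_mul_of_nonneg_left _ (by norm_num)
          refine h4.trans ?_
          exact mul_le_mul h1 h1' (Finset.sum_nonneg fun _ _ => sq_nonneg _) (by positivity)
      _ = (148 * (Fintype.card F : ℝ) ^ 2 * ∑ x, φ x ^ 2) ^ 2 := by ring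
  · positivity

end Pool.Agent.Hex4
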