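import Mathlib

/-!
# The Heisenberg group of the binary cubic forms

`H F` is the group of pairs `(c, s)`, `c ∈ F ^ 4`, `s ∈ F`, with
`(c, s) (d, t) = (c + d, s + t + ω(c, d))`, and `v ξ = ((x ^ 3, x ^ 2 y, x y ^ 2, y ^ 3), 0)` for
`ξ = (x, y)`.
-/

set_option autoImplicit false

namespace Pool.Agent.Hex4

variable {F : Type*} [Field F]

/-- Elements of the Heisenberg group. -/
@[ext] structure H (F : Type*) where
  c0 : F
  c1 : F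
  c2 : F
  c3 : F
  s : F

namespace H

/-- the symplectic form -/
def om (x y : H F) : F :=
  x.c0 * y.c3 - 3 * x.c1 * y.c2 + 3 * x.c2 * y.c1 - x.c3 * y.c0

instance : Mul (H F) :=
  ⟨fun x y => ⟨x.c0 + y.c0, x.c1 + y.c1, x.c2 + y.c2, x.c3 + y.c3, x.s + y.s + om x y⟩⟩

instance : One (H F) := ⟨⟨0, 0, 0, 0, 0⟩⟩

instance : Inv (H F) := ⟨fun x => ⟨-x.c0, -x.c1, -x.c2, -x.c3, -x.s⟩⟩

@[simp] lemma mul_c0 (x y : H F) : (x * y).c0 = x.c0 + y.c0 := rfl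
@[simp] lemma mul_c1 (x y : H F) : (x * y).c1 = x.c1 + y.c1 := rfl
@[simp] lemma mul_c2 (x y : H F) : (x * y).c2 = x.c2 + y.c2 := rfl
@[simp] lemma mul_c3 (x y : H F) : (x * y).c3 = x.c3 + y.c3 := rfl
@[simp] lemma mul_s (x y : H F) : (x * y).s = x.s + y.s +
    (x.c0 * y.c3 - 3 * x.c1 * y.c2 + 3 * x.c2 * y.c1 - x.c3 * y.c0) := rfl
@[simp] lemma one_c0 : (1 : H F).c0 = 0 := rfl
@[simp] lemma one_c1 : (1 : H F).c1 = 0 := rfl
@[simp] lemma one_c2 : (1 : H F).c2 = 0 := rfl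
@[simp] lemma one_c3 : (1 : H F).c3 = 0 := rfl
@[simp] lemma one_s : (1 : H F).s = 0 := rfl
@[simp] lemma inv_c0 (x : H F) : (x⁻¹).c0 = -x.c0 := rfl
@[simp] lemma inv_c1 (x : H F) : (x⁻¹).c1 = -x.c1 := rfl
@[simp] lemma inv_c2 (x : H F) : (x⁻¹).c2 = -x.c2 := rfl
@[simp] lemma inv_c3 (x : H F) : (x⁻¹).c3 = -x.c3 := rfl
@[simp] lemma inv_s (x : H F) : (x⁻¹).s = -x.s := rfl

instance : Group (H F) :=
  Group.ofLeftAxioms (by intro x y z; ext <;> simp <;> ring)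
    (by intro x; ext <;> simp) (by intro x; ext <;> simp; ring)

end H

/-- the determinant of two vectors -/
def br (ξ η : F × F) : F := ξ.1 * η.2 - ξ.2 * η.1

/-- the pure elements -/
def v (ξ : F × F) : H F := ⟨ξ.1 ^ 3, ξ.1 ^ 2 * ξ.2, ξ.1 * ξ.2 ^ 2, ξ.2 ^ 3, 0⟩

/-- the quartic form -/
def Q (h : H F) : F :=
  h.s ^ 2 - (h.c0 ^ 2 * h.c3 ^ 2 - 6 * h.c0 * h.c1 * h.c2 * h.c3 + 4 * h.c0 * h.c2 ^ 3 +
    4 * h.c1 ^ 3 * h.c3 - 3 * h.c1 ^ 2 * h.c2 ^ 2)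

@[simp] lemma v_c0 (ξ : F × F) : (v ξ).c0 = ξ.1 ^ 3 := rfl
@[simp] lemma v_c1 (ξ : F × F) : (v ξ).c1 = ξ.1 ^ 2 * ξ.2 := rfl
@[simp] lemma v_c2 (ξ : F × F) : (v ξ).c2 = ξ.1 * ξ.2 ^ 2 := rfl
@[simp] lemma v_c3 (ξ : F × F) : (v ξ).c3 = ξ.2 ^ 3 := rfl
@[simp] lemma v_s (ξ : F × F) : (v ξ).s = 0 := rfl

lemma v_inv (ξ : F × F) : (v ξ)⁻¹ = v (-ξ) := by
  ext <;> simp <;> ring

lemma v_mul_s (ξ η : F × F) : (v ξ * v η).s = br ξ η ^ 3 := by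
  simp [br]; ring

lemma br_plucker (a b c d : F × F) :
    br a b * br c d - br a c * br b d + br a d * br b c = 0 := by
  simp only [br]; ring

lemma br_swap (a b : F × F) : br a b = -br b a := by
  simp only [br]; ring

lemma br_neg_left (a b : F × F) : br (-a) b = -br a b := by
  simp only [br, Prod.fst_neg, Prod.snd_neg]; ring

lemma br_neg_right (a b : F × F) : br a (-b) = -br a b := by
  simp only [br, Prod.fst_neg, Prod.snd_neg]; ring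

lemma Q_two (a b : F × F) : Q (v a * v b) = 0 := by
  simp only [Q, H.mul_c0, H.mul_c1, H.mul_c2, H.mul_c3, H.mul_s, v_c0, v_c1, v_c2, v_c3, v_s]
  ring

lemma Q_three (a b c : F × F) : Q (v a * v b * v c) = 4 * br a b ^ 3 * br b c ^ 3 := by
  simp only [Q, H.mul_c0, H.mul_c1, H.mul_c2, H.mul_c3, H.mul_s, v_c0, v_c1, v_c2, v_c3, v_s, br]
  ring

lemma Q_four (a b c d : F × F) : Q (v a * v b * v c * v d) =
    4 * (br a b ^ 3 * br b c ^ 3 + br a b ^ 3 * br b d ^ 3 + br a c ^ 3 * br c d ^ 3 +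
      br b c ^ 3 * br c d ^ 3 +
      br a b ^ 2 * br c d ^ 2 * (2 * (br a b * br c d) + 3 * (br a d * br b c))) := by
  simp only [Q, H.mul_c0, H.mul_c1, H.mul_c2, H.mul_c3, H.mul_s, v_c0, v_c1, v_c2, v_c3, v_s, br]
  ring

/-- the quartic form of `v ξ * ((v η)⁻¹ * (v ξ)⁻¹ * v a * v b)` -/
lemma Q_five (ξ η a b : F × F) : Q (v ξ * v (-η) * v (-ξ) * v a * v b) =
    4 * (br a η ^ 3 * (br a b ^ 3 - br ξ η ^ 3) + br ξ η ^ 3 * br η b ^ 3 -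
      br ξ η ^ 3 * br a b ^ 3 + br ξ η ^ 6) := by
  simp only [Q, H.mul_c0, H.mul_c1, H.mul_c2, H.mul_c3, H.mul_s, v_c0, v_c1, v_c2, v_c3, v_s, br,
    Prod.fst_neg, Prod.snd_neg]
  ring

/-- the Hessian of the sum of two cubes -/
lemma hess_two (a b t : F × F) :
    ((v a * v b).c0 * (v a * v b).c2 - (v a * v b).c1 ^ 2) * t.2 ^ 2 -
      ((v a * v b).c0 * (v a * v b).c3 - (v a * v b).c1 * (v a * v b).c2) * (t.1 * t.2) +
      ((v a * v b).c1 * (v a * v b).c3 - (v a * v b).c2 ^ 2) * t.1 ^ 2 =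
    br a b ^ 2 * (br t a * br t b) := by
  simp only [H.mul_c0, H.mul_c1, H.mul_c2, H.mul_c3, v_c0, v_c1, v_c2, v_c3, br]
  ring

end Pool.Agent.Hex4
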